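import Mathlib
import Pool.Agent.H71.DN.Defs

/-!
Definitions for the Havet-Yu theorem for expanders of small chromatic number.
-/

set_option autoImplicit false

namespace Pool.Agent.H71.SX

open Finset Classical
open Pool.Agent.H71.DN

/-- Edge expansion relative to `Δ`. -/
def EE {V : Type} [Fintype V] (G : SimpleGraph V) (Δ : ℕ) (γ : ℝ) : Prop :=
  ∀ S : Finset V, 2 * S.card ≤ Fintype.card V →
    γ * Δ * S.card ≤ (ee G S (univ \ S) : ℝ)

/-- Far from bipartite, relative to `Δ`. -/
def FB {V : Type} [Fintype V] (G : SimpleGraph V) (Δ : ℕ) (γ : ℝ) : Prop :=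
  ∀ A B : Finset V, Disjoint A B →
    γ * Δ * (A.card + B.card) ≤
      (ee G A A : ℝ) + ee G B B + ee G (A ∪ B) (univ \ (A ∪ B))

/-- A proper vertex labelling `c` with labels `< k'` whose windows `{v : |c v - ℓ| < p}` leave an
even number of vertices and contain few neighbours of every vertex. -/
structure LY {V : Type} [Fintype V] (G : SimpleGraph V) (k' p : ℕ) (c : V → ℕ) (r : ℝ) :
    Prop where
  lt : ∀ v, c v < k'
  prop : ∀ u v, G.Adj u v → c u ≠ c v
  even : ∀ ℓ < k' + p - 1, Even (univ.filter fun v => ¬ (c v < ℓ + p ∧ ℓ < c v + p)).card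
  loc : ∀ ℓ v, ((univ.filter fun u => G.Adj v u ∧ c u < ℓ + p ∧ ℓ < c u + p).card : ℝ) ≤ r

end Pool.Agent.H71.SX
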