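import Mathlib
import Pool.Agent.H71.SX.Defs
import Pool.Agent.H28.TutteY

/-!
TUT: Tutte's theorem for matchings outside `U` that cover a prescribed set `Y`, with the information
that the components are odd.

Proof.  Adapt `H28/TutteY.lean` (`tutteY`, proved there; copy its proof). Let `Γ.Adj a b` be
`F.Adj a b ∧ a ∉ U ∧ b ∉ U`. The proof of `tutteY` for `Γ` and `Y` gives either a matching `M` of `Γ` that
covers `Y` (then `π v` := the `M`-partner of `v` if `v` is covered by `M`, and `v` otherwise), or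
`S`, `Q` as in `tutteY`; in addition every `q ∈ Q` is odd: `q = toF c` for an odd component `c` of the
auxiliary graph minus `u` with `c ∉ Out`, all of whose elements are of the form `inl v`, so
`#q = c.supp.ncard`, which is odd because `c ∈ oddComponents`.
Put `T := S \ U` (`#T ≤ #S < #Q`). For `z ∈ q`: `z ∈ Y`, so `z ∉ U`, `z ∉ S`; if `F.Adj z w` and `w ∉ U` then
`Γ.Adj z w`, so `w ∈ q` or `w ∈ S`, and in the second case `w ∈ T`.
-/

set_option autoImplicit false

namespace Pool.Agent.H71.SX

open Finset Classical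
open Pool.Agent.H71.DN

section Aux

open SimpleGraph Pool.Agent.H28

private theorem tutO {V : Type} [Fintype V] (Γ : SimpleGraph V) (Y : Set V)
    (h : ¬ ∃ M : Γ.Subgraph, M.IsMatching ∧ Y ⊆ M.verts) :
    ∃ (S : Finset V) (Q : Finset (Finset V)), S.card < Q.card ∧
      (∀ q ∈ Q, Odd q.card) ∧
      (∀ q ∈ Q, ∀ z ∈ q, z ∈ Y ∧ z ∉ S ∧ ∀ w, Γ.Adj z w → w ∈ q ∨ w ∈ S) ∧
      (∀ q ∈ Q, ∀ q' ∈ Q, q ≠ q' → Disjoint q q') := by
  classical
  obtain ⟨e, he⟩ : ∃ e, e = Fintype.card V % 2 := ⟨_, rfl⟩
  have heven : Even (Nat.card (V ⊕ Fin e)) := by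
    rw [Nat.card_eq_fintype_card, Fintype.card_sum, Fintype.card_fin, he, Nat.even_iff]
    omega
  by_cases hM : ∃ M : (auxG Γ Y e).Subgraph, M.IsPerfectMatching
  · exfalso
    apply h
    obtain ⟨M', hM'⟩ := hM
    let M : Γ.Subgraph :=
      { verts := {u | ∃ v, Γ.Adj u v ∧ M'.Adj (Sum.inl u) (Sum.inl v)}
        Adj := fun u v => Γ.Adj u v ∧ M'.Adj (Sum.inl u) (Sum.inl v)
        adj_sub := fun h => h.1
        edge_vert := fun {u v} h => ⟨v, h⟩
        symm := ⟨fun u v h => ⟨h.1.symm, h.2.symm⟩⟩ }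
    refine ⟨M, ?_, ?_⟩
    · rintro u ⟨v, huv⟩
      refine ⟨v, huv, ?_⟩
      rintro w ⟨_, hw⟩
      have := hM'.1.eq_of_adj_left hw huv.2
      exact Sum.inl_injective this
    · intro y hy
      obtain ⟨b, hb, _⟩ := hM'.1 (hM'.2 (Sum.inl y))
      have hadj := hb.adj_sub
      rcases hadj with ⟨u, v, h1, h2, h3⟩ | ⟨_, h2, _⟩
      · have e1 : y = u := Sum.inl_injective h1
        subst e1
        subst h2
        exact ⟨v, h3, hb⟩
      · exact absurd hy (h2 y rfl)
  · rw [SimpleGraph.tutte] at hM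
    push Not at hM
    obtain ⟨u, hu⟩ := hM
    unfold SimpleGraph.IsTutteViolator at hu
    let G1 := ((⊤ : (auxG Γ Y e).Subgraph).deleteVerts u).coe
    have hpar := SimpleGraph.odd_ncard_oddComponents (G := G1)
    have hcardV : Nat.card ↑((⊤ : (auxG Γ Y e).Subgraph).deleteVerts u).verts + u.ncard =
        Nat.card (V ⊕ Fin e) := by
      have : ((⊤ : (auxG Γ Y e).Subgraph).deleteVerts u).verts = uᶜ := by
        ext a; simp
      rw [this, Nat.card_coe_set_eq, add_comm]
      exact Set.ncard_add_ncard_compl u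
    have hge : u.ncard + 2 ≤ G1.oddComponents.ncard := by
      have hlt : u.ncard < G1.oddComponents.ncard := hu
      by_contra hcon
      have e1 : G1.oddComponents.ncard = u.ncard + 1 := by omega
      rw [e1, Nat.odd_iff, Nat.odd_iff] at hpar
      rw [Nat.even_iff] at heven
      omega
    -- components avoiding the outside vertices
    let Out : Set G1.ConnectedComponent := {c | ∃ a ∈ c.supp, ∀ v, a.1 = Sum.inl v → v ∉ Y}
    have hadjG1 : ∀ a b : ↑((⊤ : (auxG Γ Y e).Subgraph).deleteVerts u).verts,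
        (auxG Γ Y e).Adj a.1 b.1 → G1.Adj a b := by
      intro a b hab
      have ha := a.2
      have hb := b.2
      simp only [Subgraph.deleteVerts_verts, Subgraph.verts_top, Set.mem_sdiff, Set.mem_univ, true_and] at ha hb
      show ((⊤ : (auxG Γ Y e).Subgraph).deleteVerts u).Adj a.1 b.1
      rw [Subgraph.deleteVerts_adj]
      exact ⟨trivial, ha, trivial, hb, hab⟩
    have hOut : Out.ncard ≤ 1 := by
      rw [Set.ncard_le_one]
      rintro c ⟨a, hac, ha⟩ c' ⟨b, hbc, hb⟩
      rw [SimpleGraph.ConnectedComponent.mem_supp_iff] at hac hbc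
      rw [← hac, ← hbc]
      by_cases hab : a = b
      · rw [hab]
      · apply SimpleGraph.ConnectedComponent.sound
        apply SimpleGraph.Adj.reachable
        apply hadjG1
        exact Or.inr ⟨fun h => hab (Subtype.ext h), ha, hb⟩
    have hgood : u.ncard < (G1.oddComponents \ Out).ncard := by
      have h1 : G1.oddComponents.ncard ≤ (G1.oddComponents \ Out).ncard + Out.ncard := by
        refine le_trans (Set.ncard_le_ncard (t := (G1.oddComponents \ Out) ∪ Out) ?_ (Set.toFinite _))
          (Set.ncard_union_le _ _)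
        intro c hc
        by_cases hcO : c ∈ Out
        · exact Or.inr hcO
        · exact Or.inl ⟨hc, hcO⟩
      omega
    let toF : G1.ConnectedComponent → Finset V := fun c =>
      Finset.univ.filter (fun v => ∃ a ∈ c.supp, a.1 = Sum.inl v)
    have htoF : ∀ c v, v ∈ toF c ↔ ∃ a ∈ c.supp, a.1 = Sum.inl v := by
      intro c v; simp [toF]
    have hin : ∀ c, c ∉ Out → ∀ a ∈ c.supp, ∃ v, a.1 = Sum.inl v ∧ v ∈ Y := by
      intro c hc a ha
      by_contra hcon
      push Not at hcon
      exact hc ⟨a, ha, hcon⟩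
    have hnonemp : ∀ c ∈ G1.oddComponents \ Out, (toF c).Nonempty := by
      rintro c ⟨_, hcO⟩
      obtain ⟨a, ha⟩ := c.nonempty_supp
      obtain ⟨v, hv, _⟩ := hin c hcO a ha
      exact ⟨v, (htoF c v).2 ⟨a, ha, hv⟩⟩
    have hdis : ∀ c c', c ≠ c' → Disjoint (toF c) (toF c') := by
      intro c c' hcc
      rw [Finset.disjoint_left]
      intro v hv hv'
      obtain ⟨a, ha, hav⟩ := (htoF c v).1 hv
      obtain ⟨b, hb, hbv⟩ := (htoF c' v).1 hv'
      have : a = b := Subtype.ext (hav.trans hbv.symm)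
      subst this
      rw [SimpleGraph.ConnectedComponent.mem_supp_iff] at ha hb
      exact hcc (ha.symm.trans hb)
    refine ⟨Finset.univ.filter (fun v => Sum.inl v ∈ u),
      (G1.oddComponents \ Out).toFinset.image toF, ?_, ?_, ?_, ?_⟩
    · have h1 : ((G1.oddComponents \ Out).toFinset.image toF).card = (G1.oddComponents \ Out).ncard := by
        rw [Finset.card_image_of_injOn]
        · rw [Set.ncard_eq_toFinset_card']
        · intro c hc c' hc' hcc
          by_contra hne
          have h2 := hdis c c' hne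
          rw [Set.coe_toFinset] at hc
          obtain ⟨v, hv⟩ := hnonemp c hc
          have hv' : v ∈ toF c' := by
            have e1 : toF c = toF c' := hcc
            rw [← e1]; exact hv
          exact (Finset.disjoint_left.1 h2) hv hv'
      have h2 : (Finset.univ.filter (fun v : V => (Sum.inl v : V ⊕ Fin e) ∈ u)).card ≤ u.ncard := by
        rw [← Set.ncard_coe_finset]
        apply Set.ncard_le_ncard_of_injOn (fun v => (Sum.inl v : V ⊕ Fin e))
        · intro v hv
          simpa using hv
        · intro a _ b _ hab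
          exact Sum.inl_injective hab
      rw [h1]
      exact lt_of_le_of_lt h2 hgood
    · intro q hq
      rw [Finset.mem_image] at hq
      obtain ⟨c, hc, rfl⟩ := hq
      rw [Set.mem_toFinset] at hc
      have e1 : c.supp.ncard = (toF c).card := by
        rw [← Set.ncard_coe_finset]
        refine Set.ncard_congr (fun a ha => (hin c hc.2 a ha).choose) ?_ ?_ ?_
        · intro a ha
          exact (htoF c _).2 ⟨a, ha, (hin c hc.2 a ha).choose_spec.1⟩
        · intro a b ha hb hab
          have h1 := (hin c hc.2 a ha).choose_spec.1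
          have h2 := (hin c hc.2 b hb).choose_spec.1
          apply Subtype.ext
          rw [h1, h2]
          exact congrArg Sum.inl hab
        · intro v hv
          obtain ⟨a, ha, hav⟩ := (htoF c v).1 hv
          refine ⟨a, ha, ?_⟩
          have h1 := (hin c hc.2 a ha).choose_spec.1
          exact (Sum.inl_injective (h1.symm.trans hav))
      rw [← e1]
      exact hc.1
    · intro q hq z hz
      rw [Finset.mem_image] at hq
      obtain ⟨c, hc, rfl⟩ := hq
      rw [Set.mem_toFinset] at hc
      obtain ⟨a, ha, haz⟩ := (htoF c z).1 hz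
      have haU : a.1 ∉ u := by
        have := a.2
        simp only [Subgraph.deleteVerts_verts, Subgraph.verts_top, Set.mem_sdiff, Set.mem_univ, true_and] at this
        exact this
      refine ⟨?_, ?_, ?_⟩
      · obtain ⟨v, hv, hvY⟩ := hin c hc.2 a ha
        have : z = v := Sum.inl_injective (haz.symm.trans hv)
        rw [this]; exact hvY
      · simp only [Finset.mem_filter, Finset.mem_univ, true_and]
        rw [← haz]
        exact haU
      · intro w hw
        by_cases hwu : (Sum.inl w : V ⊕ Fin e) ∈ u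
        · right
          simpa using hwu
        · left
          have hwv : (Sum.inl w : V ⊕ Fin e) ∈ ((⊤ : (auxG Γ Y e).Subgraph).deleteVerts u).verts := by
            simp only [Subgraph.deleteVerts_verts, Subgraph.verts_top, Set.mem_sdiff, Set.mem_univ, true_and]
            exact hwu
          refine (htoF c w).2 ⟨⟨Sum.inl w, hwv⟩, ?_, rfl⟩
          rw [SimpleGraph.ConnectedComponent.mem_supp_iff] at ha ⊢
          rw [← ha]
          apply SimpleGraph.ConnectedComponent.sound
          apply SimpleGraph.Adj.reachable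
          apply SimpleGraph.Adj.symm
          apply hadjG1
          exact Or.inl ⟨z, w, haz, rfl, hw⟩
    · intro q hq q' hq' hne
      rw [Finset.mem_image] at hq hq'
      obtain ⟨c, hc, rfl⟩ := hq
      obtain ⟨c', hc', rfl⟩ := hq'
      exact hdis c c' (fun h => hne (by rw [h]))

end Aux

theorem tut {V : Type} [Fintype V] (F : SimpleGraph V) (U Y : Finset V) (hY : Disjoint Y U) :
    (∃ π : V → V, Inv π ∧ (∀ v ∈ U, π v = v) ∧ (∀ v, π v ≠ v → F.Adj v (π v)) ∧
      ∀ v ∈ Y, π v ≠ v) ∨
    ∃ (T : Finset V) (Q : Finset (Finset V)), T.card < Q.card ∧ Disjoint T U ∧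
      (∀ q ∈ Q, Odd q.card ∧ q ⊆ Y ∧ Disjoint q T ∧
        ∀ z ∈ q, ∀ w, F.Adj z w → w ∈ q ∨ w ∈ T ∨ w ∈ U) ∧
      (∀ q ∈ Q, ∀ q' ∈ Q, q ≠ q' → Disjoint q q') := by
  let Γ : SimpleGraph V :=
    { Adj := fun a b => F.Adj a b ∧ a ∉ U ∧ b ∉ U
      symm := ⟨fun a b h => ⟨h.1.symm, h.2.2, h.2.1⟩⟩
      loopless := ⟨fun a h => h.1.ne rfl⟩ }
  have hΓ : ∀ a b, Γ.Adj a b ↔ F.Adj a b ∧ a ∉ U ∧ b ∉ U := fun a b => Iff.rfl
  by_cases hM : ∃ M : Γ.Subgraph, M.IsMatching ∧ (Y : Set V) ⊆ M.verts
  · left
    obtain ⟨M, hM, hYM⟩ := hM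
    have hex : ∀ v ∈ M.verts, ∃ w, M.Adj v w := fun v hv => (hM hv).exists
    let π : V → V := fun v => if h : v ∈ M.verts then (hex v h).choose else v
    have hπ1 : ∀ v, v ∈ M.verts → M.Adj v (π v) := by
      intro v hv
      have e : π v = (hex v hv).choose := dif_pos hv
      rw [e]
      exact (hex v hv).choose_spec
    have hπ2 : ∀ v, v ∉ M.verts → π v = v := fun v hv => dif_neg hv
    have hΓ1 : ∀ v, v ∈ M.verts → F.Adj v (π v) ∧ v ∉ U := by
      intro v hv
      have h1 := (hΓ _ _).1 (hπ1 v hv).adj_sub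
      exact ⟨h1.1, h1.2.1⟩
    have hne : ∀ v, v ∈ M.verts → π v ≠ v := fun v hv => (hΓ1 v hv).1.ne'
    refine ⟨π, ?_, ?_, ?_, ?_⟩
    · intro v
      by_cases hv : v ∈ M.verts
      · have h1 := hπ1 v hv
        have hv2 : π v ∈ M.verts := M.edge_vert h1.symm
        have h2 := hπ1 (π v) hv2
        exact hM.eq_of_adj_left h2 h1.symm
      · rw [hπ2 v hv, hπ2 v hv]
    · intro v hv
      apply hπ2
      intro h
      exact (hΓ1 v h).2 hv
    · intro v hv
      by_cases h : v ∈ M.verts
      · exact (hΓ1 v h).1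
      · exact absurd (hπ2 v h) hv
    · intro v hv
      exact hne v (hYM hv)
  · right
    obtain ⟨S, Q, h1, h2, h3, h4⟩ := tutO Γ (Y : Set V) hM
    refine ⟨S \ U, Q, ?_, ?_, ?_, h4⟩
    · exact lt_of_le_of_lt (Finset.card_le_card Finset.sdiff_subset) h1
    · exact Finset.sdiff_disjoint
    · intro q hq
      refine ⟨h2 q hq, ?_, ?_, ?_⟩
      · intro z hz
        exact (h3 q hq z hz).1
      · rw [Finset.disjoint_left]
        intro z hz hz'
        exact (h3 q hq z hz).2.1 (Finset.mem_sdiff.1 hz').1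
      · intro z hz w hw
        by_cases hwU : w ∈ U
        · exact Or.inr (Or.inr hwU)
        · have hzU : z ∉ U := by
            have hzY : z ∈ Y := (h3 q hq z hz).1
            exact (Finset.disjoint_left.1 hY) hzY
          rcases (h3 q hq z hz).2.2 w ((hΓ z w).2 ⟨hw, hzU, hwU⟩) with h | h
          · exact Or.inl h
          · exact Or.inr (Or.inl (Finset.mem_sdiff.2 ⟨h, hwU⟩))

end Pool.Agent.H71.SX
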