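import Mathlib
import Pool.Agent.H71.SX.Defs
import Pool.Agent.H71.SX.Tut

/-!
PMT: a matching of `F` outside `U` that covers all the vertices outside `U` whose degree in `G` is at
least `(1 - η) Δ`. `F` is `G` minus a few edges at each vertex.

Proof (`n = #V`, all inequalities in the reals; `e(A, B) = ee G A B`, symmetric, additive in each
argument over disjoint unions, `∑_{v ∈ A} dg G v = ee G A univ`).  `Y := {v : v ∉ U, (1 - η) Δ ≤ dg G v}`.
Suppose `tut` gives `T`, `Q` (the other case is the claim). Let `q ∈ Q`. The `G`-edges from `q` to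
`univ \ q` go to `T`, to `U` (at most `η Δ #q`, by `hU`), or to other vertices `w ∉ q ∪ T ∪ U`: for these
`¬ F.Adj z w`, and each `z` has at most `dg G z - dg F z ≤ η Δ` neighbours `w` with `¬ F.Adj z w`. So
 (0) `e(q, T) ≥ e(q, univ \ q) - 2 η Δ #q`.
 (1) If `#q = 1`: `e(q, univ \ q) = dg G z ≥ (1 - η) Δ`, so `e(q, T) ≥ (1 - 3 η) Δ`.
 (2) If `#q ≥ 2` (then `#q ≥ 3`, being odd) and `2 #q ≤ n`: `e(q, T) ≥ (3/2) Δ`. Indeed, if `#q ≤ η Δ`:
   `e(q, univ \ q) = ∑_{z ∈ q} dg G z - e(q, q) ≥ (1 - η) Δ #q - #q ^ 2 ≥ (1 - 2 η) Δ #q`, so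
   `e(q, T) ≥ (1 - 4 η) Δ #q ≥ (1/2) Δ * 3`. If `#q > η Δ`: by `hE` `e(q, univ \ q) ≥ γ Δ #q`, so
   `e(q, T) ≥ (γ - 2 η) Δ #q ≥ (γ / 2) Δ (η Δ) ≥ (3/2) Δ` (`γ η Δ ≥ 3`, `2 η ≤ γ / 5`).
 Let `Q1 = {q : #q = 1}`, `Q2 = {q : #q ≥ 2, 2 #q ≤ n}`, `Q3 = {q : n < 2 #q}`; `#Q3 ≤ 1` by disjointness.
 `#Q1 + #Q2 ≥ #Q - 1 ≥ #T`. Since the `q` are disjoint and disjoint from `T`,
 (3) `(1 - 3 η) Δ #Q1 + (3/2) Δ #Q2 ≤ ∑_{q ∈ Q1 ∪ Q2} e(q, T) ≤ e(univ, T) = ∑_{t ∈ T} dg G t ≤ Δ #T`.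
 (`Δ > 0` by `hγηΔ`.) So `(1 - 3 η) #Q1 + (3/2) #Q2 ≤ #T ≤ #Q1 + #Q2`, hence
 `(1 - 3η) (#T - #Q2) + (3/2) #Q2 ≤ #T`, `(1/2) #Q2 ≤ 3 η #T`, `#Q2 ≤ 6 η #T`, `#Q1 ≥ (1 - 6 η) #T`.
 Case `T ≠ ∅`.  `I := Q1.biUnion id`, `#I = #Q1 ≥ (1 - 6 η) #T > 0`, `I`, `T` disjoint,
   `e(I, T) = ∑_{q ∈ Q1} e(q, T) ≥ (1 - 3 η) Δ #I`. Put `R := univ \ (I ∪ T)`.
   `e(I, I) + e(I, R) = ∑_{I} dg - e(I, T) ≤ Δ #I - (1 - 3 η) Δ #I = 3 η Δ #I`;
   `e(T, T) + e(T, R) = ∑_{T} dg - e(T, I) ≤ Δ #T - (1 - 3 η) (1 - 6 η) Δ #T ≤ 9 η Δ #T`.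
   By `hB` for `A = I`, `B = T`: `γ Δ (#I + #T) ≤ e(I, I) + e(T, T) + e(I ∪ T, R) ≤ 9 η Δ (#I + #T)`, so
   `γ ≤ 9 η`, against `hηγ` (`10 η ≤ γ`, `η > 0`).
 Case `T = ∅`.  `e(q, T) = 0`, so by (1), (2) `Q1 = Q2 = ∅`; `Q ≠ ∅`, so there is `q0 ∈ Q` with
   `n < 2 #q0`. Let `R := univ \ (U ∪ q0)`; `2 #R ≤ n`. If `R ≠ ∅`: by `hE` `γ Δ #R ≤ e(R, univ \ R)`, and
   `univ \ R = U ∪ q0`; `e(R, U) ≤ η Δ #R` by `hU`; there is no `F`-edge between `R` and `q0` (an `F`-neighbour of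
   `z ∈ q0` is in `q0 ∪ U`), so `e(R, q0) ≤ η Δ #R`. So `γ ≤ 2 η`, a contradiction. So `R = ∅`,
   `univ \ U = q0` (`q0 ⊆ Y` is disjoint from `U`), whose cardinality is even (`hev`) and odd.
-/

set_option autoImplicit false

namespace Pool.Agent.H71.SX

open Finset Classical
open Pool.Agent.H71.DN

theorem Pmt_sum {V : Type} [Fintype V] (G : SimpleGraph V) (A B : Finset V) :
    ee G A B = ∑ a ∈ A, (B.filter fun b => G.Adj a b).card := by
  unfold ee
  rw [Finset.card_filter, Finset.sum_product]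
  refine Finset.sum_congr rfl fun a _ => ?_
  rw [Finset.card_filter]

theorem Pmt_comm {V : Type} [Fintype V] (G : SimpleGraph V) (A B : Finset V) :
    ee G A B = ee G B A := by
  unfold ee
  refine Finset.card_bij (fun x _ => (x.2, x.1)) ?_ ?_ ?_
  · intro x hx
    rw [Finset.mem_filter, Finset.mem_product] at hx ⊢
    exact ⟨⟨hx.1.2, hx.1.1⟩, hx.2.symm⟩
  · intro x _ y _ h
    rw [Prod.mk.injEq] at h
    exact Prod.ext h.2 h.1
  · intro y hy
    rw [Finset.mem_filter, Finset.mem_product] at hy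
    refine ⟨(y.2, y.1), ?_, rfl⟩
    rw [Finset.mem_filter, Finset.mem_product]
    exact ⟨⟨hy.1.2, hy.1.1⟩, hy.2.symm⟩

theorem Pmt_union {V : Type} [Fintype V] (G : SimpleGraph V) (A A' B : Finset V)
    (h : Disjoint A A') : ee G (A ∪ A') B = ee G A B + ee G A' B := by
  rw [Pmt_sum, Pmt_sum, Pmt_sum, Finset.sum_union h]

theorem Pmt_union_le {V : Type} [Fintype V] (G : SimpleGraph V) (A A' B : Finset V) :
    ee G (A ∪ A') B ≤ ee G A B + ee G A' B := by
  rw [Pmt_sum, Pmt_sum, Pmt_sum, ← Finset.sum_union_inter]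
  exact Nat.le_add_right _ _

theorem Pmt_mono {V : Type} [Fintype V] (G : SimpleGraph V) (A A' B : Finset V) (h : A ⊆ A') :
    ee G A B ≤ ee G A' B := by
  rw [Pmt_sum, Pmt_sum]
  exact Finset.sum_le_sum_of_subset h

theorem Pmt_biU {V : Type} [Fintype V] (G : SimpleGraph V) (Q : Finset (Finset V))
    (hQ : ∀ q ∈ Q, ∀ q' ∈ Q, q ≠ q' → Disjoint q q') (B : Finset V) :
    ee G (Q.biUnion id) B = ∑ q ∈ Q, ee G q B := by
  rw [Pmt_sum, Finset.sum_biUnion]
  · refine Finset.sum_congr rfl fun q _ => ?_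
    rw [Pmt_sum]
    rfl
  · intro q hq q' hq' hne
    exact hQ q hq q' hq' hne

theorem Pmt_deg {V : Type} [Fintype V] (G : SimpleGraph V) (Δ : ℕ) (hΔ : ∀ v, dg G v ≤ Δ)
    (A : Finset V) : (ee G A univ : ℝ) ≤ Δ * A.card := by
  rw [Pmt_sum]
  push_cast
  have h1 : ∀ a ∈ A, ((univ.filter fun b => G.Adj a b).card : ℝ) ≤ Δ := by
    intro a _
    exact_mod_cast hΔ a
  refine (Finset.sum_le_sum h1).trans ?_
  rw [Finset.sum_const, nsmul_eq_mul, mul_comm]

theorem Pmt_def {V : Type} [Fintype V] (G F : SimpleGraph V) (Δ : ℕ) (η : ℝ) (hFG : F ≤ G)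
    (hF : ∀ v, (dg G v : ℝ) ≤ dg F v + η * Δ) (z : V) :
    ((univ.filter fun w => G.Adj z w ∧ ¬ F.Adj z w).card : ℝ) ≤ η * Δ := by
  have h1 : dg G z = dg F z + (univ.filter fun w => G.Adj z w ∧ ¬ F.Adj z w).card := by
    unfold dg
    rw [← Finset.card_union_of_disjoint]
    · congr 1
      ext w
      simp only [mem_filter, mem_union, mem_univ, true_and]
      constructor
      · intro h
        by_cases hw : F.Adj z w
        · exact Or.inl hw
        · exact Or.inr ⟨h, hw⟩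
      · rintro (h | h)
        · exact hFG h
        · exact h.1
    · rw [Finset.disjoint_left]
      intro w hw hw'
      simp only [mem_filter, mem_univ, true_and] at hw hw'
      exact hw'.2 hw
  have h2 := hF z
  have h3 : (dg G z : ℝ) = dg F z +
      ((univ.filter fun w => G.Adj z w ∧ ¬ F.Adj z w).card : ℝ) := by
    exact_mod_cast h1
  linarith

/-- Step (0). -/
theorem Pmt_zero {V : Type} [Fintype V] (G F : SimpleGraph V) (Δ : ℕ) (U : Finset V) (η : ℝ)
    (hFG : F ≤ G) (hF : ∀ v, (dg G v : ℝ) ≤ dg F v + η * Δ)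
    (hU : ∀ v, ((U.filter fun u => G.Adj v u).card : ℝ) ≤ η * Δ) (q T : Finset V)
    (h4 : ∀ z ∈ q, ∀ w, F.Adj z w → w ∈ q ∨ w ∈ T ∨ w ∈ U) :
    (ee G q (univ \ q) : ℝ) ≤ ee G q T + 2 * η * Δ * q.card := by
  have h1 : ∀ z ∈ q, (((univ \ q).filter fun b => G.Adj z b).card : ℝ) ≤
      ((T.filter fun b => G.Adj z b).card : ℝ) + 2 * η * Δ := by
    intro z hz
    have h2 : ((univ \ q).filter fun b => G.Adj z b) ⊆ (T.filter fun b => G.Adj z b) ∪
        ((U.filter fun b => G.Adj z b) ∪ (univ.filter fun w => G.Adj z w ∧ ¬ F.Adj z w)) := by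
      intro w hw
      rw [mem_filter, mem_sdiff] at hw
      obtain ⟨⟨-, hwq⟩, hwG⟩ := hw
      simp only [mem_union, mem_filter, mem_univ, true_and]
      by_cases hwF : F.Adj z w
      · rcases h4 z hz w hwF with h | h | h
        · exact absurd h hwq
        · exact Or.inl ⟨h, hwG⟩
        · exact Or.inr (Or.inl ⟨h, hwG⟩)
      · exact Or.inr (Or.inr ⟨hwG, hwF⟩)
    have h3 := (Finset.card_le_card h2).trans ((Finset.card_union_le _ _).trans
      (Nat.add_le_add_left (Finset.card_union_le _ _) _))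
    have h5 := hU z
    have h6 := Pmt_def G F Δ η hFG hF z
    have h7 : (((univ \ q).filter fun b => G.Adj z b).card : ℝ) ≤
        ((T.filter fun b => G.Adj z b).card : ℝ) + (((U.filter fun b => G.Adj z b).card : ℝ) +
          ((univ.filter fun w => G.Adj z w ∧ ¬ F.Adj z w).card : ℝ)) := by
      exact_mod_cast h3
    linarith
  rw [Pmt_sum, Pmt_sum]
  push_cast
  refine (Finset.sum_le_sum h1).trans ?_
  rw [Finset.sum_add_distrib, Finset.sum_const, nsmul_eq_mul]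
  linarith

/-- `e(q, univ \ q) = ∑ dg - e(q, q)`. -/
theorem Pmt_cut {V : Type} [Fintype V] (G : SimpleGraph V) (q : Finset V) :
    (ee G q (univ \ q) : ℝ) + ee G q q = ∑ z ∈ q, (dg G z : ℝ) := by
  have h1 : ee G q univ = ∑ z ∈ q, dg G z := by
    rw [Pmt_sum]
    rfl
  have h2 : ee G q (univ \ q) + ee G q q = ee G q univ := by
    rw [Pmt_comm G q (univ \ q), Pmt_comm G q q, ← Pmt_union G _ _ _ Finset.sdiff_disjoint,
      Finset.sdiff_union_of_subset (Finset.subset_univ q), Pmt_comm]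
  rw [h1] at h2
  exact_mod_cast h2

theorem Pmt_sq {V : Type} [Fintype V] (G : SimpleGraph V) (q : Finset V) :
    (ee G q q : ℝ) ≤ q.card * q.card := by
  have h1 : ee G q q ≤ q.card * q.card := by
    unfold ee
    refine (Finset.card_filter_le _ _).trans ?_
    rw [Finset.card_product]
  exact_mod_cast h1

theorem pmt {V : Type} [Fintype V] (G F : SimpleGraph V) (Δ : ℕ) (U : Finset V) (γ η : ℝ)
    (hη : 0 < η) (hη8 : η ≤ 1 / 8) (hηγ : 10 * η ≤ γ) (hγηΔ : 3 ≤ γ * η * Δ) (hFG : F ≤ G)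
    (hΔ : ∀ v, dg G v ≤ Δ) (hF : ∀ v, (dg G v : ℝ) ≤ dg F v + η * Δ)
    (hU : ∀ v, ((U.filter fun u => G.Adj v u).card : ℝ) ≤ η * Δ)
    (hev : Even (univ \ U).card) (hE : EE G Δ γ) (hB : FB G Δ γ) :
    ∃ π : V → V, Inv π ∧ (∀ v ∈ U, π v = v) ∧ (∀ v, π v ≠ v → F.Adj v (π v)) ∧
      ∀ v, v ∉ U → (1 - η) * Δ ≤ (dg G v : ℝ) → π v ≠ v := by
  have hγ0 : 0 < γ := by linarith
  have hΔ0 : (0 : ℝ) < Δ := by
    by_contra hc
    have h1 : (Δ : ℝ) = 0 := le_antisymm (not_lt.mp hc) (Nat.cast_nonneg _)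
    rw [h1] at hγηΔ
    linarith
  obtain ⟨Y, hYd⟩ : ∃ Y : Finset V, Y = univ.filter fun v => v ∉ U ∧ (1 - η) * Δ ≤ (dg G v : ℝ) :=
    ⟨_, rfl⟩
  have hYm : ∀ v, v ∈ Y ↔ v ∉ U ∧ (1 - η) * Δ ≤ (dg G v : ℝ) := by
    intro v
    rw [hYd, mem_filter]
    exact ⟨fun h => h.2, fun h => ⟨mem_univ _, h⟩⟩
  have hYU : Disjoint Y U := by
    rw [Finset.disjoint_left]
    intro v hv hv'
    exact ((hYm v).1 hv).1 hv'
  rcases tut F U Y hYU with ⟨π, h1, h2, h3, h4⟩ | ⟨T, Q, hTQ, -, hQ, hQd⟩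
  · exact ⟨π, h1, h2, h3, fun v hv hv' => h4 v ((hYm v).2 ⟨hv, hv'⟩)⟩
  exfalso
  have h0 : ∀ q ∈ Q, (ee G q (univ \ q) : ℝ) ≤ ee G q T + 2 * η * Δ * q.card := by
    intro q hq
    exact Pmt_zero G F Δ U η hFG hF hU q T (hQ q hq).2.2.2
  have hdeg : ∀ q ∈ Q, (1 - η) * Δ * q.card ≤ ∑ z ∈ q, (dg G z : ℝ) := by
    intro q hq
    have h1 : ∀ z ∈ q, (1 - η) * Δ ≤ (dg G z : ℝ) := by
      intro z hz
      exact ((hYm z).1 ((hQ q hq).2.1 hz)).2
    have h2 := Finset.sum_le_sum h1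
    rw [Finset.sum_const, nsmul_eq_mul] at h2
    linarith
  -- step (1)
  have hs1 : ∀ q ∈ Q, q.card = 1 → (1 - 3 * η) * Δ ≤ (ee G q T : ℝ) := by
    intro q hq hq1
    have h1 := h0 q hq
    have h2 := hdeg q hq
    have h3 := Pmt_cut G q
    have h4 : ee G q q = 0 := by
      obtain ⟨z, rfl⟩ := Finset.card_eq_one.mp hq1
      rw [Pmt_sum, Finset.sum_singleton, Finset.card_eq_zero, Finset.filter_eq_empty_iff]
      intro w hw
      rw [Finset.mem_singleton] at hw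
      rw [hw]
      exact G.loopless.irrefl z
    have h5 : (ee G q q : ℝ) = 0 := by rw [h4, Nat.cast_zero]
    have h6 : (q.card : ℝ) = 1 := by rw [hq1, Nat.cast_one]
    rw [h6] at h1 h2
    rw [h5] at h3
    linarith
  -- step (2)
  have hs2 : ∀ q ∈ Q, q.card ≠ 1 → 2 * q.card ≤ Fintype.card V →
      3 / 2 * (Δ : ℝ) ≤ (ee G q T : ℝ) := by
    intro q hq hq1 hq2
    have h1 := h0 q hq
    have hodd := (hQ q hq).1
    have hq3 : 3 ≤ q.card := by
      obtain ⟨k, hk⟩ := hodd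
      omega
    have hq3r : (3 : ℝ) ≤ q.card := by exact_mod_cast hq3
    by_cases hc : (q.card : ℝ) ≤ η * Δ
    · have h2 := hdeg q hq
      have h3 := Pmt_cut G q
      have h4 := Pmt_sq G q
      have h5 : (q.card : ℝ) * q.card ≤ η * Δ * q.card :=
        mul_le_mul_of_nonneg_right hc (Nat.cast_nonneg _)
      have h6 : (1 - 4 * η) * Δ * q.card ≤ (ee G q T : ℝ) := by nlinarith
      have h7 : (1 / 2) * Δ ≤ (1 - 4 * η) * Δ := by
        refine mul_le_mul_of_nonneg_right ?_ hΔ0.le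
        linarith
      have h8 : (1 / 2) * Δ * 3 ≤ (1 - 4 * η) * Δ * q.card := by
        refine mul_le_mul h7 hq3r (by norm_num) ?_
        refine mul_nonneg ?_ hΔ0.le
        linarith
      linarith
    · have h2 := hE q hq2
      have h3 := not_le.mp hc
      have h4 : γ / 2 * Δ * (η * Δ) ≤ (γ - 2 * η) * Δ * q.card := by
        refine mul_le_mul ?_ h3.le (by positivity) ?_
        · refine mul_le_mul_of_nonneg_right ?_ hΔ0.le
          linarith
        · refine mul_nonneg ?_ hΔ0.le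
          linarith
      have h5 : 3 * (Δ : ℝ) ≤ γ * η * Δ * Δ := mul_le_mul_of_nonneg_right hγηΔ hΔ0.le
      nlinarith
  obtain ⟨Q1, hQ1⟩ : ∃ Q1 : Finset (Finset V), Q1 = Q.filter fun q => q.card = 1 := ⟨_, rfl⟩
  obtain ⟨Q2, hQ2⟩ : ∃ Q2 : Finset (Finset V), Q2 = Q.filter fun q => q.card ≠ 1 ∧
    2 * q.card ≤ Fintype.card V := ⟨_, rfl⟩
  obtain ⟨Q3, hQ3⟩ : ∃ Q3 : Finset (Finset V), Q3 = Q.filter fun q => Fintype.card V <
    2 * q.card := ⟨_, rfl⟩
  have hm1 : ∀ q, q ∈ Q1 ↔ q ∈ Q ∧ q.card = 1 := by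
    intro q
    rw [hQ1, mem_filter]
  have hm2 : ∀ q, q ∈ Q2 ↔ q ∈ Q ∧ q.card ≠ 1 ∧ 2 * q.card ≤ Fintype.card V := by
    intro q
    rw [hQ2, mem_filter]
  have hm3 : ∀ q, q ∈ Q3 ↔ q ∈ Q ∧ Fintype.card V < 2 * q.card := by
    intro q
    rw [hQ3, mem_filter]
  have h12 : Disjoint Q1 Q2 := by
    rw [Finset.disjoint_left]
    intro q h1 h2
    exact ((hm2 q).1 h2).2.1 ((hm1 q).1 h1).2
  have hQsub : Q ⊆ (Q1 ∪ Q2) ∪ Q3 := by
    intro q hq
    rw [mem_union, mem_union, hm1, hm2, hm3]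
    by_cases h1 : q.card = 1
    · exact Or.inl (Or.inl ⟨hq, h1⟩)
    · by_cases h2 : 2 * q.card ≤ Fintype.card V
      · exact Or.inl (Or.inr ⟨hq, h1, h2⟩)
      · exact Or.inr ⟨hq, not_le.mp h2⟩
  have hQ3c : Q3.card ≤ 1 := by
    rw [Finset.card_le_one]
    intro q hq q' hq'
    by_contra hne
    have h1 := (hm3 q).1 hq
    have h2 := (hm3 q').1 hq'
    have h3 := hQd q h1.1 q' h2.1 hne
    have h4 := Finset.card_union_of_disjoint h3
    have h5 : (q ∪ q').card ≤ Fintype.card V := Finset.card_le_univ _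
    omega
  have hcount : T.card ≤ Q1.card + Q2.card := by
    have h1 := Finset.card_le_card hQsub
    have h2 := Finset.card_union_le (Q1 ∪ Q2) Q3
    have h3 := Finset.card_union_le Q1 Q2
    omega
  have hsub1 : ∀ q ∈ Q1 ∪ Q2, q ∈ Q := by
    intro q hq
    rw [mem_union, hm1, hm2] at hq
    rcases hq with h | h
    · exact h.1
    · exact h.1
  have hsumle : (1 - 3 * η) * Δ * Q1.card + 3 / 2 * Δ * Q2.card ≤ Δ * T.card := by
    have h1 : (1 - 3 * η) * Δ * Q1.card ≤ ∑ q ∈ Q1, (ee G q T : ℝ) := by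
      have h2 : ∀ q ∈ Q1, (1 - 3 * η) * Δ ≤ (ee G q T : ℝ) := by
        intro q hq
        exact hs1 q ((hm1 q).1 hq).1 ((hm1 q).1 hq).2
      have h3 := Finset.sum_le_sum h2
      rw [Finset.sum_const, nsmul_eq_mul] at h3
      linarith
    have h2 : 3 / 2 * Δ * Q2.card ≤ ∑ q ∈ Q2, (ee G q T : ℝ) := by
      have h2 : ∀ q ∈ Q2, 3 / 2 * (Δ : ℝ) ≤ (ee G q T : ℝ) := by
        intro q hq
        exact hs2 q ((hm2 q).1 hq).1 ((hm2 q).1 hq).2.1 ((hm2 q).1 hq).2.2
      have h3 := Finset.sum_le_sum h2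
      rw [Finset.sum_const, nsmul_eq_mul] at h3
      linarith
    have h3 : ∑ q ∈ Q1, (ee G q T : ℝ) + ∑ q ∈ Q2, (ee G q T : ℝ) =
        (ee G ((Q1 ∪ Q2).biUnion id) T : ℝ) := by
      rw [← Finset.sum_union h12, Pmt_biU G (Q1 ∪ Q2)
        (fun q hq q' hq' hne => hQd q (hsub1 q hq) q' (hsub1 q' hq') hne) T]
      push_cast
      rfl
    have h4 : (ee G ((Q1 ∪ Q2).biUnion id) T : ℝ) ≤ ee G T univ := by
      rw [Pmt_comm G T univ]
      exact_mod_cast Pmt_mono G _ _ T (Finset.subset_univ _)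
    have h5 := Pmt_deg G Δ hΔ T
    linarith
  rcases Finset.eq_empty_or_nonempty T with hT0 | hT0
  · -- the case `T = ∅`
    rw [hT0, Finset.card_empty, Nat.cast_zero, mul_zero] at hsumle
    have h1 : Q1.card = 0 ∧ Q2.card = 0 := by
      have h2 : (0 : ℝ) < (1 - 3 * η) * Δ := mul_pos (by linarith) hΔ0
      have h3 : (0 : ℝ) < 3 / 2 * Δ := mul_pos (by norm_num) hΔ0
      have h4 : (0 : ℝ) ≤ Q1.card := Nat.cast_nonneg _
      have h5 : (0 : ℝ) ≤ Q2.card := Nat.cast_nonneg _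
      have h6 := mul_nonneg h2.le h4
      have h7 := mul_nonneg h3.le h5
      constructor
      · by_contra hc
        have h8 : (0 : ℝ) < Q1.card := by
          have := Nat.pos_of_ne_zero hc
          exact_mod_cast this
        have := mul_pos h2 h8
        linarith
      · by_contra hc
        have h8 : (0 : ℝ) < Q2.card := by
          have := Nat.pos_of_ne_zero hc
          exact_mod_cast this
        have := mul_pos h3 h8
        linarith
    have hQne : Q.Nonempty := Finset.card_pos.mp (by omega)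
    obtain ⟨q0, hq0⟩ := hQne
    have hbig : Fintype.card V < 2 * q0.card := by
      have h2 := hQsub hq0
      rw [mem_union, mem_union, Finset.card_eq_zero.mp h1.1, Finset.card_eq_zero.mp h1.2] at h2
      rcases h2 with (h2 | h2) | h2
      · exact absurd h2 (Finset.notMem_empty _)
      · exact absurd h2 (Finset.notMem_empty _)
      · exact ((hm3 q0).1 h2).2
    obtain ⟨hodd, hqY, -, hq4⟩ := hQ q0 hq0
    have hqU : Disjoint q0 U := Finset.disjoint_of_subset_left hqY hYU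
    obtain ⟨R, hR⟩ : ∃ R : Finset V, R = univ \ (U ∪ q0) := ⟨_, rfl⟩
    have hRc : 2 * R.card ≤ Fintype.card V := by
      have h2 : Disjoint R q0 := by
        rw [hR, Finset.disjoint_left]
        intro v hv hv'
        rw [mem_sdiff, mem_union] at hv
        exact hv.2 (Or.inr hv')
      have h3 := Finset.card_union_of_disjoint h2
      have h5 : (R ∪ q0).card ≤ Fintype.card V := Finset.card_le_univ _
      omega
    have hRu : univ \ R = U ∪ q0 := by
      rw [hR, Finset.sdiff_sdiff_eq_self (Finset.subset_univ _)]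
    rcases Finset.eq_empty_or_nonempty R with hR0 | hR0
    · have h2 : univ \ U = q0 := by
        rw [hR0, Finset.sdiff_empty] at hRu
        rw [hRu, Finset.union_sdiff_left, Finset.sdiff_eq_self_of_disjoint hqU]
      rw [h2] at hev
      exact (Nat.not_even_iff_odd.mpr hodd) hev
    · have h2 := hE R hRc
      rw [hRu, Pmt_comm] at h2
      have h3 := Pmt_union_le G U q0 R
      rw [Pmt_comm G U R, Pmt_comm G q0 R] at h3
      have h4 : (ee G R U : ℝ) ≤ η * Δ * R.card := by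
        rw [Pmt_sum]
        push_cast
        refine (Finset.sum_le_sum fun v _ => hU v).trans ?_
        rw [Finset.sum_const, nsmul_eq_mul, mul_comm]
      have h5 : (ee G R q0 : ℝ) ≤ η * Δ * R.card := by
        rw [Pmt_sum]
        push_cast
        have h6 : ∀ v ∈ R, ((q0.filter fun b => G.Adj v b).card : ℝ) ≤ η * Δ := by
          intro v hv
          refine le_trans ?_ (Pmt_def G F Δ η hFG hF v)
          have h7 : (q0.filter fun b => G.Adj v b) ⊆
              (univ.filter fun w => G.Adj v w ∧ ¬ F.Adj v w) := by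
            intro w hw
            rw [mem_filter] at hw ⊢
            refine ⟨mem_univ _, hw.2, fun hF' => ?_⟩
            rw [hR, mem_sdiff, mem_union] at hv
            rcases hq4 w hw.1 v hF'.symm with h | h | h
            · exact hv.2 (Or.inr h)
            · rw [hT0] at h
              exact absurd h (Finset.notMem_empty _)
            · exact hv.2 (Or.inl h)
          exact_mod_cast Finset.card_le_card h7
        refine (Finset.sum_le_sum h6).trans ?_
        rw [Finset.sum_const, nsmul_eq_mul, mul_comm]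
      have h6 : (ee G (U ∪ q0) R : ℝ) ≤ ee G R U + ee G R q0 := by exact_mod_cast h3
      have h7 : (0 : ℝ) < R.card := by exact_mod_cast Finset.card_pos.mpr hR0
      have h8 : 0 < Δ * (R.card : ℝ) := mul_pos hΔ0 h7
      have h9 : (γ - 2 * η) * (Δ * (R.card : ℝ)) ≤ 0 := by linarith
      have h10 : 0 < (γ - 2 * η) * (Δ * (R.card : ℝ)) := mul_pos (by linarith) h8
      linarith
  · -- the case `T ≠ ∅`
    have hTc : (0 : ℝ) < T.card := by exact_mod_cast Finset.card_pos.mpr hT0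
    have hc1 : (T.card : ℝ) ≤ Q1.card + Q2.card := by exact_mod_cast hcount
    have hs : (1 - 3 * η) * Q1.card + 3 / 2 * Q2.card ≤ (T.card : ℝ) := by
      have h1 : Δ * ((1 - 3 * η) * Q1.card + 3 / 2 * Q2.card) ≤ Δ * (T.card : ℝ) := by linarith
      exact le_of_mul_le_mul_left h1 hΔ0
    have hQ2n : (0 : ℝ) ≤ Q2.card := Nat.cast_nonneg _
    have hQ1b : (1 - 6 * η) * T.card ≤ (Q1.card : ℝ) := by
      have h1 : (1 - 3 * η) * (T.card - Q2.card) ≤ (1 - 3 * η) * (Q1.card : ℝ) := by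
        refine mul_le_mul_of_nonneg_left ?_ ?_
        · linarith
        · linarith
      have h2 := mul_nonneg hη.le hQ2n
      nlinarith
    obtain ⟨I, hI⟩ : ∃ I : Finset V, I = Q1.biUnion id := ⟨_, rfl⟩
    have hd1 : ∀ q ∈ Q1, ∀ q' ∈ Q1, q ≠ q' → Disjoint q q' := by
      intro q hq q' hq' hne
      exact hQd q ((hm1 q).1 hq).1 q' ((hm1 q').1 hq').1 hne
    have hIc : I.card = Q1.card := by
      rw [hI, Finset.card_biUnion]
      · rw [Finset.card_eq_sum_ones]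
        refine Finset.sum_congr rfl fun q hq => ?_
        exact ((hm1 q).1 hq).2
      · intro q hq q' hq' hne
        exact hd1 q hq q' hq' hne
    have hIT : Disjoint I T := by
      rw [hI, Finset.disjoint_biUnion_left]
      intro q hq
      exact (hQ q ((hm1 q).1 hq).1).2.2.1
    have heIT : (1 - 3 * η) * Δ * I.card ≤ (ee G I T : ℝ) := by
      have h2 : ∀ q ∈ Q1, (1 - 3 * η) * Δ ≤ (ee G q T : ℝ) := by
        intro q hq
        exact hs1 q ((hm1 q).1 hq).1 ((hm1 q).1 hq).2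
      have h3 := Finset.sum_le_sum h2
      rw [Finset.sum_const, nsmul_eq_mul] at h3
      have h4 : (ee G I T : ℝ) = ∑ q ∈ Q1, (ee G q T : ℝ) := by
        rw [hI, Pmt_biU G Q1 hd1 T]
        push_cast
        rfl
      rw [h4, hIc]
      linarith
    obtain ⟨R, hR⟩ : ∃ R : Finset V, R = univ \ (I ∪ T) := ⟨_, rfl⟩
    have hdR : Disjoint (I ∪ T) R := by
      rw [hR]
      exact Finset.disjoint_sdiff
    have huR : (I ∪ T) ∪ R = univ := by
      rw [hR]
      exact Finset.union_sdiff_of_subset (Finset.subset_univ _)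
    have hsplit : ∀ A : Finset V, (ee G A univ : ℝ) = ee G A I + ee G A T + ee G A R := by
      intro A
      have h1 : ee G A univ = ee G A I + ee G A T + ee G A R := by
        rw [Pmt_comm G A univ, ← huR, Pmt_union G _ _ _ hdR, Pmt_union G _ _ _ hIT,
          Pmt_comm G I A, Pmt_comm G T A, Pmt_comm G R A]
      exact_mod_cast h1
    have hb := hB I T hIT
    rw [← hR] at hb
    have h1 : (ee G (I ∪ T) R : ℝ) = ee G I R + ee G T R := by
      have h2 := Pmt_union G I T R hIT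
      exact_mod_cast h2
    have h2 := hsplit I
    have h3 := hsplit T
    have h4 : (ee G T I : ℝ) = ee G I T := by rw [Pmt_comm]
    have h5 := Pmt_deg G Δ hΔ I
    have h6 := Pmt_deg G Δ hΔ T
    have hIcr : (I.card : ℝ) = Q1.card := by exact_mod_cast hIc
    rw [← hIcr] at hQ1b
    have h7 : (1 - 3 * η) * ((1 - 6 * η) * T.card) ≤ (1 - 3 * η) * (I.card : ℝ) :=
      mul_le_mul_of_nonneg_left hQ1b (by linarith)
    have h8 : (1 - 9 * η) * T.card ≤ (1 - 3 * η) * ((1 - 6 * η) * (T.card : ℝ)) := by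
      have h9 : 0 ≤ 18 * (η * η) * (T.card : ℝ) := by positivity
      nlinarith
    have h9 : (1 - 9 * η) * T.card * Δ ≤ (1 - 3 * η) * I.card * (Δ : ℝ) :=
      mul_le_mul_of_nonneg_right (h8.trans h7) hΔ0.le
    have hIn : (0 : ℝ) ≤ I.card := Nat.cast_nonneg _
    have h10 : γ * Δ * (I.card + T.card) ≤ 3 * η * Δ * I.card + 9 * η * Δ * T.card := by
      linarith
    have h11 : 0 ≤ η * Δ * (I.card : ℝ) := by positivity
    have h12' : 0 < (γ - 9 * η) * (Δ * ((I.card : ℝ) + T.card)) :=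
      mul_pos (by linarith) (mul_pos hΔ0 (by linarith))
    linarith

end Pool.Agent.H71.SX
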