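import Mathlib
import Pool.Agent.H71.SX.Defs

/-!
PFX: from a proper colouring `g` with colours `< m` of the vertices outside `X0` (an even number) to a
proper colouring `h` with colours `< 2 m` all of whose classes are even; the new classes have two elements.

Proof (`n = #V`).  `O := {j < m : #{v ∉ X0 : g v = j} is odd}`; `#O` is even, because the sum of all the class
sizes is `#(univ \ X0)`. Choose `x j` with `x j ∉ X0`, `g (x j) = j` for `j ∈ O`; `X := x '' O`, `#X ≤ m`.
Claim: for every `O' ⊆ O` with `#O'` even there is `z : ℕ → V`, injective on `O'`, with, for `j ∈ O'`: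
`z j ∉ X0 ∪ X`, `¬ G.Adj (x j) (z j)`, and for every `i` the number of `j ∈ O'` with `g (z j) = i` is even.
 Induction on `#O'` (by steps of 2): pick `j ≠ j'` in `O'`, `O'' := O' \ {j, j'}`, `z` for `O''`. The set
 `W` of the vertices not in `X0 ∪ X ∪ z '' O''` and adjacent neither to `x j` nor to `x j'` has at least
 `n - #X0 - m - m - 2 Δ > 2 m ≥ m` elements (`hbig`), so two of them, `w ≠ w'`, have the same `g`
 (`Finset.exists_ne_map_eq_of_card_lt_of_maps_to`). Set `z j := w`, `z j' := w'`.
Take `O' = O`, `Z := z '' O` (disjoint from `X` and `X0`). Let `rk : ℕ → ℕ` be injective on `O` with values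
`< m` (for example `rk j = j`!). Define `h v := m + j` if `v = x j` or `v = z j` for a `j ∈ O` (unique), and
`h v := g v` otherwise. For `v ∉ X0`: `h v < 2 m`; `h v < m → h v = g v`. Classes: `{v ∉ X0 : h v = m + j}` is
`{x j, z j}` (two different elements) for `j ∈ O` and empty for the other `j`; for `i < m` the class
`{v ∉ X0 : h v = i}` is `{v ∉ X0 : g v = i}` minus `x i` (if `i ∈ O`) minus the `z j` with `g (z j) = i` (an even
number): even. Proper: `x j`, `z j` are not adjacent; two vertices with the same `h v < m` have the same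
`g v`, so are not adjacent.
-/

set_option autoImplicit false

namespace Pool.Agent.H71.SX

open Finset Classical
open Pool.Agent.H71.DN

private theorem SxPfx_z {V : Type} [Fintype V] (G : SimpleGraph V) (Δ m : ℕ) (X0 X : Finset V) (O : Finset ℕ)
    (x : ℕ → V) (g : V → ℕ) (hg : ∀ v, g v < m) (hΔ : ∀ v, dg G v ≤ Δ)
    (hX : X.card ≤ m) (hO : O.card ≤ m)
    (hbig : X0.card + 2 * Δ + 4 * m < Fintype.card V) (n : ℕ) :
    ∀ O' : Finset ℕ, O' ⊆ O → O'.card = 2 * n → ∃ z : ℕ → V,
      (∀ j ∈ O', z j ∉ X0 ∧ z j ∉ X ∧ ¬ G.Adj (x j) (z j)) ∧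
      (∀ j ∈ O', ∀ j' ∈ O', z j = z j' → j = j') ∧
      ∀ i, Even (O'.filter fun j => g (z j) = i).card := by
  induction n with
  | zero =>
    intro O' _ hc
    have h0 : O' = ∅ := Finset.card_eq_zero.1 (by omega)
    subst h0
    exact ⟨x, by simp, by simp, by simp⟩
  | succ n ih =>
    intro O' hsub hc
    obtain ⟨j, hj, j', hj', hne⟩ := Finset.one_lt_card.1 (show 1 < O'.card by omega)
    obtain ⟨z, z1, z2, z3⟩ := ih ((O'.erase j).erase j')
      (((Finset.erase_subset _ _).trans (Finset.erase_subset _ _)).trans hsub) (by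
        rw [Finset.card_erase_of_mem (Finset.mem_erase.2 ⟨hne.symm, hj'⟩), Finset.card_erase_of_mem hj]
        omega)
    set O'' := (O'.erase j).erase j' with hO''
    have hO2 : O''.card ≤ m :=
      (Finset.card_le_card (((Finset.erase_subset _ _).trans (Finset.erase_subset _ _)).trans hsub)).trans hO
    set Bd := X0 ∪ X ∪ O''.image z ∪ (univ.filter fun w => G.Adj (x j) w) ∪
      (univ.filter fun w => G.Adj (x j') w) with hBd
    have hBdc : Bd.card ≤ X0.card + m + m + Δ + Δ := by
      have h1 := Finset.card_union_le (X0 ∪ X ∪ O''.image z ∪ (univ.filter fun w => G.Adj (x j) w))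
        (univ.filter fun w => G.Adj (x j') w)
      have h2 := Finset.card_union_le (X0 ∪ X ∪ O''.image z) (univ.filter fun w => G.Adj (x j) w)
      have h3 := Finset.card_union_le (X0 ∪ X) (O''.image z)
      have h4 := Finset.card_union_le X0 X
      have h5 : (O''.image z).card ≤ O''.card := Finset.card_image_le
      have h6 : (univ.filter fun w => G.Adj (x j) w).card ≤ Δ := hΔ (x j)
      have h7 : (univ.filter fun w => G.Adj (x j') w).card ≤ Δ := hΔ (x j')
      rw [hBd]
      omega
    have hW : (range m).card < (univ \ Bd).card := by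
      rw [card_range, ← Finset.compl_eq_univ_sdiff, Finset.card_compl]
      omega
    obtain ⟨w, hw, w', hw', hww, hgw⟩ := Finset.exists_ne_map_eq_of_card_lt_of_maps_to hW
      (f := g) (fun v _ => Finset.mem_coe.2 (mem_range.2 (hg v)))
    have mW : ∀ v ∈ univ \ Bd, v ∉ X0 ∧ v ∉ X ∧ (∀ k ∈ O'', z k ≠ v) ∧ ¬ G.Adj (x j) v ∧ ¬ G.Adj (x j') v := by
      intro v hv
      rw [Finset.mem_sdiff] at hv
      have hv2 := hv.2
      rw [hBd] at hv2
      simp only [Finset.mem_union, Finset.mem_filter, Finset.mem_univ, true_and, Finset.mem_image, not_or,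
        not_exists, not_and] at hv2
      exact ⟨hv2.1.1.1.1, hv2.1.1.1.2, fun k hk => hv2.1.1.2 k hk, hv2.1.2, hv2.2⟩
    have W1 := mW w hw
    have W2 := mW w' hw'
    have memO : ∀ k ∈ O', k = j ∨ k = j' ∨ k ∈ O'' := by
      intro k hk
      by_cases e1 : k = j
      · exact Or.inl e1
      · by_cases e2 : k = j'
        · exact Or.inr (Or.inl e2)
        · exact Or.inr (Or.inr (Finset.mem_erase.2 ⟨e2, Finset.mem_erase.2 ⟨e1, hk⟩⟩))
    have nj : j ∉ O'' := by
      rw [hO'', Finset.mem_erase, Finset.mem_erase]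
      tauto
    have nj' : j' ∉ O'' := by
      rw [hO'', Finset.mem_erase]
      tauto
    obtain ⟨z', hz'⟩ : ∃ z' : ℕ → V, ∀ k, z' k = if k = j then w else if k = j' then w' else z k :=
      ⟨_, fun _ => rfl⟩
    have e1 : z' j = w := by rw [hz', if_pos rfl]
    have e2 : z' j' = w' := by rw [hz', if_neg hne.symm, if_pos rfl]
    have e3 : ∀ k ∈ O'', z' k = z k := by
      intro k hk
      have k1 : k ≠ j := fun h => nj (h ▸ hk)
      have k2 : k ≠ j' := fun h => nj' (h ▸ hk)
      rw [hz', if_neg k1, if_neg k2]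
    refine ⟨z', ?_, ?_, ?_⟩
    · intro k hk
      rcases memO k hk with rfl | rfl | hk2
      · rw [e1]
        exact ⟨W1.1, W1.2.1, W1.2.2.2.1⟩
      · rw [e2]
        exact ⟨W2.1, W2.2.1, W2.2.2.2.2⟩
      · rw [e3 k hk2]
        exact z1 k hk2
    · intro k hk l hl hkl
      rcases memO k hk with hk2 | hk2 | hk2 <;> rcases memO l hl with hl2 | hl2 | hl2
      · rw [hk2, hl2]
      · rw [hk2, hl2, e1, e2] at hkl
        exact absurd hkl hww
      · rw [hk2, e1, e3 l hl2] at hkl
        exact absurd hkl.symm (W1.2.2.1 l hl2)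
      · rw [hk2, hl2, e1, e2] at hkl
        exact absurd hkl.symm hww
      · rw [hk2, hl2]
      · rw [hk2, e2, e3 l hl2] at hkl
        exact absurd hkl.symm (W2.2.2.1 l hl2)
      · rw [hl2, e1, e3 k hk2] at hkl
        exact absurd hkl (W1.2.2.1 k hk2)
      · rw [hl2, e2, e3 k hk2] at hkl
        exact absurd hkl (W2.2.2.1 k hk2)
      · rw [e3 k hk2, e3 l hl2] at hkl
        exact z2 k hk2 l hl2 hkl
    · intro i
      have hins : O' = insert j (insert j' O'') := by
        ext k
        rw [Finset.mem_insert, Finset.mem_insert]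
        constructor
        · exact memO k
        · rintro (rfl | rfl | hk)
          · exact hj
          · exact hj'
          · exact Finset.mem_of_mem_erase (Finset.mem_of_mem_erase hk)
      have hcf : (O''.filter fun k => g (z' k) = i) = O''.filter fun k => g (z k) = i := by
        refine Finset.filter_congr fun k hk => ?_
        rw [e3 k hk]
      rw [hins, Finset.card_filter, Finset.sum_insert (by
        rw [Finset.mem_insert]
        push Not
        exact ⟨hne, nj⟩), Finset.sum_insert nj', ← Finset.card_filter, hcf, e1, e2, ← hgw]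
      have := z3 i
      by_cases hi : g w = i
      · rw [if_pos hi]
        rw [← add_assoc]
        exact (by decide : Even (1 + 1)).add this
      · rw [if_neg hi]
        simpa using this

theorem pfx {V : Type} [Fintype V] (G : SimpleGraph V) (Δ m : ℕ) (X0 : Finset V) (g : V → ℕ)
    (hg : ∀ v, g v < m) (hprop : ∀ u v, G.Adj u v → g u ≠ g v) (hΔ : ∀ v, dg G v ≤ Δ)
    (hev : Even (univ \ X0).card)
    (hbig : X0.card + 2 * Δ + 4 * m < Fintype.card V) :
    ∃ h : V → ℕ, (∀ v, v ∉ X0 → h v < 2 * m) ∧ (∀ v, v ∉ X0 → h v < m → h v = g v) ∧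
      (∀ j, Even (univ.filter fun v => v ∉ X0 ∧ h v = j).card) ∧
      (∀ j, m ≤ j → (univ.filter fun v => v ∉ X0 ∧ h v = j).card ≤ 2) ∧
      (∀ u, u ∉ X0 → ∀ v, v ∉ X0 → G.Adj u v → h u ≠ h v) := by
  set O := (range m).filter fun j => Odd (univ.filter fun v => v ∉ X0 ∧ g v = j).card with hOd
  have hOm : O.card ≤ m := (Finset.card_filter_le _ _).trans (card_range m).le
  have hOlt : ∀ j ∈ O, j < m := fun j hj => mem_range.1 (Finset.mem_filter.1 hj).1
  have hOev : Even O.card := by
    rw [hOd, ← Finset.even_sum_iff_even_card_odd]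
    have h1 := Finset.card_eq_sum_card_fiberwise (s := univ \ X0) (t := range m) (f := g)
      (fun v _ => Finset.mem_coe.2 (mem_range.2 (hg v)))
    have h2 : ∀ j ∈ range m, (univ.filter fun v => v ∉ X0 ∧ g v = j).card =
        ((univ \ X0).filter fun v => g v = j).card := by
      intro j _
      apply congrArg Finset.card
      ext v
      simp only [Finset.mem_filter, Finset.mem_sdiff, Finset.mem_univ, true_and]
    rw [Finset.sum_congr rfl h2, ← h1]
    exact hev
  have : Nonempty V := Fintype.card_pos_iff.1 (by omega)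
  have hex : ∀ j ∈ O, ∃ v, v ∉ X0 ∧ g v = j := by
    intro j hj
    have h1 := (Finset.mem_filter.1 hj).2
    have h2 : 0 < (univ.filter fun v => v ∉ X0 ∧ g v = j).card := h1.pos
    obtain ⟨v, hv⟩ := Finset.card_pos.1 h2
    exact ⟨v, (Finset.mem_filter.1 hv).2⟩
  choose! x hx0 hxg using hex
  have hXc : (O.image x).card ≤ m := Finset.card_image_le.trans hOm
  obtain ⟨n, hn⟩ := hOev
  obtain ⟨z, z1, z2, z3⟩ := SxPfx_z G Δ m X0 (O.image x) O x g hg hΔ hXc hOm hbig n O (Finset.Subset.refl _)
    (by omega)
  have hxz : ∀ j ∈ O, ∀ k ∈ O, z j ≠ x k := fun j hj k hk h =>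
    (z1 j hj).2.1 (by rw [h]; exact Finset.mem_image_of_mem x hk)
  have hxx : ∀ j ∈ O, ∀ k ∈ O, x j = x k → j = k := fun j hj k hk h => by
    rw [← hxg j hj, ← hxg k hk, h]
  obtain ⟨h, hh1, hh2, hh3⟩ : ∃ h : V → ℕ, (∀ j ∈ O, h (x j) = m + j) ∧ (∀ j ∈ O, h (z j) = m + j) ∧
      ∀ v, (∀ j ∈ O, v ≠ x j ∧ v ≠ z j) → h v = g v := by
    refine ⟨fun v => if hv : ∃ j, j ∈ O ∧ (v = x j ∨ v = z j) then m + hv.choose else g v, ?_, ?_, ?_⟩
    · intro j hj
      have hv : ∃ k, k ∈ O ∧ (x j = x k ∨ x j = z k) := ⟨j, hj, Or.inl rfl⟩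
      show (if hv : ∃ k, k ∈ O ∧ (x j = x k ∨ x j = z k) then m + hv.choose else g (x j)) = m + j
      rw [dif_pos hv]
      obtain ⟨c1, c2⟩ := hv.choose_spec
      rcases c2 with c2 | c2
      · rw [← hxx j hj _ c1 c2]
      · exact absurd c2.symm (hxz _ c1 j hj)
    · intro j hj
      have hv : ∃ k, k ∈ O ∧ (z j = x k ∨ z j = z k) := ⟨j, hj, Or.inr rfl⟩
      show (if hv : ∃ k, k ∈ O ∧ (z j = x k ∨ z j = z k) then m + hv.choose else g (z j)) = m + j
      rw [dif_pos hv]
      obtain ⟨c1, c2⟩ := hv.choose_spec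
      rcases c2 with c2 | c2
      · exact absurd c2 (hxz j hj _ c1)
      · rw [← z2 j hj _ c1 c2]
    · intro v hv
      have hn : ¬ ∃ k, k ∈ O ∧ (v = x k ∨ v = z k) := by
        rintro ⟨k, hk, c | c⟩
        · exact (hv k hk).1 c
        · exact (hv k hk).2 c
      show (if hv : ∃ k, k ∈ O ∧ (v = x k ∨ v = z k) then m + hv.choose else g v) = g v
      rw [dif_neg hn]
  have tri : ∀ v, (∃ j ∈ O, (v = x j ∨ v = z j) ∧ h v = m + j) ∨ ((∀ j ∈ O, v ≠ x j ∧ v ≠ z j) ∧ h v = g v) := by
    intro v
    by_cases hv : ∃ j ∈ O, v = x j ∨ v = z j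
    · left
      obtain ⟨j, hj, c⟩ := hv
      refine ⟨j, hj, c, ?_⟩
      rcases c with c | c
      · rw [c, hh1 j hj]
      · rw [c, hh2 j hj]
    · right
      push Not at hv
      exact ⟨hv, hh3 v hv⟩
  have hlow : ∀ v, h v < m → (∀ j ∈ O, v ≠ x j ∧ v ≠ z j) ∧ h v = g v := by
    intro v hv
    rcases tri v with ⟨j, _, _, h1⟩ | h1
    · omega
    · exact h1
  have hhigh : ∀ v, m ≤ h v → ∃ j ∈ O, (v = x j ∨ v = z j) ∧ h v = m + j := by
    intro v hv
    rcases tri v with h1 | ⟨_, h1⟩
    · exact h1
    · have := hg v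
      omega
  have hup : ∀ j, m ≤ j → (univ.filter fun v => v ∉ X0 ∧ h v = j) = ∅ ∨
      (univ.filter fun v => v ∉ X0 ∧ h v = j).card = 2 := by
    intro j hj
    by_cases hjO : j - m ∈ O
    · right
      have e : (univ.filter fun v => v ∉ X0 ∧ h v = j) = {x (j - m), z (j - m)} := by
        ext v
        rw [Finset.mem_filter, Finset.mem_insert, Finset.mem_singleton]
        constructor
        · rintro ⟨_, _, h2⟩
          obtain ⟨k, _, c, h3⟩ := hhigh v (by omega)
          have : k = j - m := by omega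
          rw [← this]
          exact c
        · rintro (c | c)
          · rw [c, hh1 _ hjO]
            exact ⟨Finset.mem_univ _, hx0 _ hjO, by omega⟩
          · rw [c, hh2 _ hjO]
            exact ⟨Finset.mem_univ _, (z1 _ hjO).1, by omega⟩
      rw [e]
      exact Finset.card_pair (hxz _ hjO _ hjO).symm
    · left
      rw [Finset.filter_eq_empty_iff]
      rintro v _ ⟨_, h2⟩
      obtain ⟨k, hk, _, h3⟩ := hhigh v (by omega)
      have : k = j - m := by omega
      exact hjO (this ▸ hk)
  refine ⟨h, ?_, ?_, ?_, ?_, ?_⟩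
  · intro v _
    rcases tri v with ⟨j, hj, _, h1⟩ | ⟨_, h1⟩
    · have := hOlt j hj
      omega
    · have := hg v
      omega
  · intro v _ hv
    exact (hlow v hv).2
  · intro j
    rcases Nat.lt_or_ge j m with hj | hj
    · have hT : (univ.filter fun v => v ∉ X0 ∧ g v = j) =
          (univ.filter fun v => v ∉ X0 ∧ h v = j) ∪ ((O.filter fun k => k = j).image x ∪
            (O.filter fun k => g (z k) = j).image z) := by
        ext v
        simp only [Finset.mem_union, Finset.mem_filter, Finset.mem_univ, true_and, Finset.mem_image]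
        constructor
        · rintro ⟨h1, h2⟩
          rcases tri v with ⟨k, hk, c, h3⟩ | ⟨_, h3⟩
          · right
            rcases c with c | c
            · left
              refine ⟨k, ⟨hk, ?_⟩, c.symm⟩
              rw [← hxg k hk, ← c, h2]
            · right
              exact ⟨k, ⟨hk, by rw [← c, h2]⟩, c.symm⟩
          · left
            exact ⟨h1, by rw [h3, h2]⟩
        · rintro (⟨h1, h2⟩ | ⟨k, ⟨hk, h2⟩, rfl⟩ | ⟨k, ⟨hk, h2⟩, rfl⟩)
          · exact ⟨h1, by rw [← (hlow v (by omega)).2, h2]⟩
          · exact ⟨hx0 k hk, by rw [hxg k hk, h2]⟩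
          · exact ⟨(z1 k hk).1, h2⟩
      have hd1 : Disjoint (univ.filter fun v => v ∉ X0 ∧ h v = j) ((O.filter fun k => k = j).image x ∪
            (O.filter fun k => g (z k) = j).image z) := by
        rw [Finset.disjoint_left]
        intro v hv hv2
        have h1 := hlow v (by rw [(Finset.mem_filter.1 hv).2.2]; exact hj)
        simp only [Finset.mem_union, Finset.mem_filter, Finset.mem_image] at hv2
        rcases hv2 with ⟨k, ⟨hk, _⟩, c⟩ | ⟨k, ⟨hk, _⟩, c⟩
        · exact (h1.1 k hk).1 c.symm
        · exact (h1.1 k hk).2 c.symm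
      have hd2 : Disjoint ((O.filter fun k => k = j).image x) ((O.filter fun k => g (z k) = j).image z) := by
        rw [Finset.disjoint_left]
        intro v hv hv2
        rw [Finset.mem_image] at hv hv2
        obtain ⟨k, hk, c⟩ := hv
        obtain ⟨l, hl, c2⟩ := hv2
        exact hxz l (Finset.mem_filter.1 hl).1 k (Finset.mem_filter.1 hk).1 (c2.trans c.symm)
      have hc := congrArg Finset.card hT
      rw [Finset.card_union_of_disjoint hd1, Finset.card_union_of_disjoint hd2,
        Finset.card_image_of_injOn (fun k hk l hl c => hxx k (Finset.mem_filter.1 hk).1 l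
          (Finset.mem_filter.1 hl).1 c),
        Finset.card_image_of_injOn (fun k hk l hl c => z2 k (Finset.mem_filter.1 hk).1 l
          (Finset.mem_filter.1 hl).1 c)] at hc
      have hz := z3 j
      by_cases hjO : j ∈ O
      · have h1 : Odd (univ.filter fun v => v ∉ X0 ∧ g v = j).card := (Finset.mem_filter.1 hjO).2
        have h2 : (O.filter fun k => k = j) = {j} := by
          ext k
          rw [Finset.mem_filter, Finset.mem_singleton]
          constructor
          · exact fun h => h.2
          · rintro rfl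
            exact ⟨hjO, rfl⟩
        rw [h2, Finset.card_singleton] at hc
        rw [hc] at h1
        obtain ⟨a, ha⟩ := h1
        obtain ⟨b, hb⟩ := hz
        exact ⟨a - b, by omega⟩
      · have h1 : ¬ Odd (univ.filter fun v => v ∉ X0 ∧ g v = j).card := fun h1 =>
          hjO (Finset.mem_filter.2 ⟨mem_range.2 hj, h1⟩)
        have h2 : (O.filter fun k => k = j) = ∅ := by
          rw [Finset.filter_eq_empty_iff]
          rintro k hk rfl
          exact hjO hk
        rw [h2, Finset.card_empty] at hc
        rw [Nat.not_odd_iff_even, hc] at h1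
        obtain ⟨a, ha⟩ := h1
        obtain ⟨b, hb⟩ := hz
        exact ⟨a - b, by omega⟩
    · rcases hup j hj with h1 | h1
      · rw [h1, Finset.card_empty]
        exact Even.zero
      · rw [h1]
        decide
  · intro j hj
    rcases hup j hj with h1 | h1
    · rw [h1, Finset.card_empty]
      omega
    · rw [h1]
  · intro u _ v _ hadj heq
    rcases Nat.lt_or_ge (h u) m with hu | hu
    · have h1 := (hlow u hu).2
      have h2 := (hlow v (by omega)).2
      exact hprop u v hadj (by rw [← h1, ← h2, heq])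
    · obtain ⟨j, hj, c, h1⟩ := hhigh u hu
      obtain ⟨k, hk, d, h2⟩ := hhigh v (by omega)
      have hjk : j = k := by omega
      subst hjk
      have nadj := (z1 j hj).2.2
      rcases c with rfl | rfl <;> rcases d with rfl | rfl
      · exact G.loopless.irrefl _ hadj
      · exact nadj hadj
      · exact nadj hadj.symm
      · exact G.loopless.irrefl _ hadj

end Pool.Agent.H71.SX
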