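import Mathlib
import Pool.Agent.H71.SX.Defs
import Pool.Agent.H71.SX.Pfx

/-!
EVN: a proper labelling of the vertices outside `X0` (an even number) with even classes, such that `2 p - 1`
consecutive labels contain few neighbours of every vertex.

Proof.  `b := k + 2 p`, `g v := f v * k + col v < s * k` (proper since `col` is; `k ≥ 1` unless `V` is empty).
`pfx` with `m = s * k` gives `h`. `e v := if h v < s * k then f v * b + col v else s * b + (h v - s * k)`.
For `v ∉ X0` with `h v < s k`: `h v = g v = f v * k + col v`, so `h v` determines `f v = h v / k` and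
`col v = h v % k`, and `e v = f v * b + col v < s * b`. Otherwise `e v < s b + s k`. Both are
`< 2 s (k + 2 p)`. So `e v = e u` iff `h v = h u` (for `u, v ∉ X0`): proper, and the classes of `e` are the
classes of `h` or empty: even. (For `j < s b`, `j = i b + r`, `r < b`: `{e = j}` is `{h = i k + r}` if `r < k`, and
empty if `r ≥ k`; for `j ≥ s b`: `{e = j} = {h = j - s b + s k}`.)
The last claim: let `u ∉ X0`, `a ≤ e u < a + (2 p - 1)`. If `e u < s b`, then `e u = f u * b + col u` with
`col u < b`, so `f u = e u / b ∈ {a / b, a / b + 1}` (`2 p - 1 ≤ b`): at most `2 (2 Δ / s)` neighbours `u` of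
`v`, by `hfc`. If `e u ≥ s b`: at most `2 p - 1` values of `e u`, each taken at most twice
(`h u = e u - s b + s k ≥ s k`): at most `4 p`.
-/

set_option autoImplicit false

namespace Pool.Agent.H71.SX

open Finset Classical
open Pool.Agent.H71.DN

/-- The relabelling `E` of the values of `h`. -/
private theorem evn_E (k b s : ℕ) (hk : 1 ≤ k) (hkb : k ≤ b) :
    ∃ E : ℕ → ℕ, (∀ q r, q < s → r < k → E (q * k + r) = q * b + r) ∧
      (∀ t, s * k ≤ t → E t = s * b + (t - s * k)) ∧ Function.Injective E ∧
      ∀ t, t < 2 * (s * k) → E t < 2 * s * b := by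
  obtain ⟨E, hE1, hE2⟩ : ∃ E : ℕ → ℕ, (∀ t, t < s * k → E t = (t / k) * b + t % k) ∧
      (∀ t, s * k ≤ t → E t = s * b + (t - s * k)) :=
    ⟨fun t => if t < s * k then (t / k) * b + t % k else s * b + (t - s * k),
      fun t ht => if_pos ht, fun t ht => if_neg (by omega)⟩
  have hdiv : ∀ t, t < s * k → t / k < s := fun t ht => (Nat.div_lt_iff_lt_mul hk).2 ht
  have hlt : ∀ t, t < s * k → E t < s * b := by
    intro t ht
    rw [hE1 t ht]
    have h1 := hdiv t ht
    have h2 := Nat.mod_lt t hk
    have h3 : (t / k + 1) * b ≤ s * b := Nat.mul_le_mul_right _ h1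
    rw [Nat.add_mul, Nat.one_mul] at h3
    omega
  refine ⟨E, ?_, hE2, ?_, ?_⟩
  · intro q r hq hr
    have h1 : (q + 1) * k ≤ s * k := Nat.mul_le_mul_right _ hq
    rw [Nat.add_mul, Nat.one_mul] at h1
    rw [hE1 _ (by omega)]
    have h2 : (q * k + r) / k = q := by
      rw [Nat.add_comm, Nat.add_mul_div_right _ _ hk, Nat.div_eq_of_lt hr, Nat.zero_add]
    have h3 : (q * k + r) % k = r := by
      rw [Nat.add_comm, Nat.add_mul_mod_self_right, Nat.mod_eq_of_lt hr]
    rw [h2, h3]
  · intro t t' h
    rcases Nat.lt_or_ge t (s * k) with ht | ht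
    · rcases Nat.lt_or_ge t' (s * k) with ht' | ht'
      · rw [hE1 t ht, hE1 t' ht'] at h
        have h2 := Nat.mod_lt t hk
        have h2' := Nat.mod_lt t' hk
        have hb : 0 < b := by omega
        have h3 : (t / k * b + t % k) / b = t / k := by
          rw [Nat.add_comm, Nat.add_mul_div_right _ _ hb, Nat.div_eq_of_lt (by omega),
            Nat.zero_add]
        have h3' : (t' / k * b + t' % k) / b = t' / k := by
          rw [Nat.add_comm, Nat.add_mul_div_right _ _ hb, Nat.div_eq_of_lt (by omega),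
            Nat.zero_add]
        have h4 : t / k = t' / k := by rw [← h3, ← h3', h]
        have h5 : t % k = t' % k := by
          rw [h4] at h
          omega
        rw [← Nat.div_add_mod t k, ← Nat.div_add_mod t' k, h4, h5]
      · have h1 := hlt t ht
        rw [h, hE2 t' ht'] at h1
        omega
    · rcases Nat.lt_or_ge t' (s * k) with ht' | ht'
      · have h1 := hlt t' ht'
        rw [← h, hE2 t ht] at h1
        omega
      · rw [hE2 t ht, hE2 t' ht'] at h
        omega
  · intro t ht
    have h0 : 2 * s * b = s * b + s * b := by ring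
    rw [h0]
    rcases Nat.lt_or_ge t (s * k) with ht' | ht'
    · have := hlt t ht'
      omega
    · rw [hE2 t ht']
      have h1 : s * k ≤ s * b := Nat.mul_le_mul_left _ hkb
      omega

theorem evn {V : Type} [Fintype V] (G : SimpleGraph V) (Δ k s p : ℕ) (X0 : Finset V)
    (col f : V → ℕ) (hp : 1 ≤ p) (hs : 1 ≤ s) (hcol : ∀ v, col v < k)
    (hprop : ∀ u v, G.Adj u v → col u ≠ col v) (hf : ∀ v, f v < s)
    (hfc : ∀ v i, (univ.filter fun u => G.Adj v u ∧ f u = i).card * s ≤ 2 * Δ)
    (hΔ : ∀ v, dg G v ≤ Δ) (hev : Even (univ \ X0).card)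
    (hbig : X0.card + 2 * Δ + 4 * (s * k) < Fintype.card V) :
    ∃ e : V → ℕ, (∀ v, v ∉ X0 → e v < 2 * s * (k + 2 * p)) ∧
      (∀ j, Even (univ.filter fun v => v ∉ X0 ∧ e v = j).card) ∧
      (∀ u, u ∉ X0 → ∀ v, v ∉ X0 → G.Adj u v → e u ≠ e v) ∧
      ∀ v a, ((univ.filter fun u => u ∉ X0 ∧ G.Adj v u ∧ a ≤ e u ∧ e u < a + (2 * p - 1)).card : ℝ)
        ≤ 4 * (Δ : ℝ) / s + 4 * p := by
  obtain ⟨v0, -⟩ : ∃ v : V, v ∈ (univ : Finset V) := by
    have h0 : 0 < Fintype.card V := by omega
    exact Finset.card_pos.1 h0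
  have hk : 1 ≤ k := by
    have := hcol v0
    omega
  have hsc : ∀ v, f v * k + col v < s * k := by
    intro v
    have h1 : (f v + 1) * k ≤ s * k := Nat.mul_le_mul_right _ (hf v)
    rw [Nat.add_mul, Nat.one_mul] at h1
    have := hcol v
    omega
  have hgp : ∀ u v, G.Adj u v → f u * k + col u ≠ f v * k + col v := by
    intro u v huv h
    apply hprop u v huv
    have h1 : (f u * k + col u) % k = col u := by
      rw [Nat.add_comm, Nat.add_mul_mod_self_right, Nat.mod_eq_of_lt (hcol u)]
    have h2 : (f v * k + col v) % k = col v := by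
      rw [Nat.add_comm, Nat.add_mul_mod_self_right, Nat.mod_eq_of_lt (hcol v)]
    rw [← h1, ← h2, h]
  obtain ⟨h, h1, h2, h3, h4, h5⟩ := pfx G Δ (s * k) X0 (fun v => f v * k + col v) hsc hgp hΔ hev hbig
  obtain ⟨E, hE1, hE2, hEi, hE3⟩ := evn_E k (k + 2 * p) s hk (by omega)
  refine ⟨fun v => E (h v), fun v hv => hE3 _ (h1 v hv), ?_, ?_, ?_⟩
  · intro j
    by_cases hj : ∃ t, E t = j
    · obtain ⟨t, rfl⟩ := hj
      have h6 : (univ.filter fun v => v ∉ X0 ∧ E (h v) = E t) =
          (univ.filter fun v => v ∉ X0 ∧ h v = t) := by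
        ext v
        simp only [mem_filter, mem_univ, true_and, hEi.eq_iff]
      rw [h6]
      exact h3 t
    · have h6 : (univ.filter fun v => v ∉ X0 ∧ E (h v) = j) = ∅ := by
        rw [Finset.filter_eq_empty_iff]
        rintro v - ⟨-, h7⟩
        exact hj ⟨_, h7⟩
      rw [h6]
      simp
  · intro u hu v hv huv h6
    exact h5 u hu v hv huv (hEi h6)
  · intro v a
    have hb : 0 < k + 2 * p := by omega
    set A1 := univ.filter fun u => G.Adj v u ∧ f u = a / (k + 2 * p) with hA1
    set A2 := univ.filter fun u => G.Adj v u ∧ f u = a / (k + 2 * p) + 1 with hA2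
    set A3 := (Ico a (a + (2 * p - 1))).biUnion fun j =>
      (univ.filter fun u => u ∉ X0 ∧ h u = s * k + (j - s * (k + 2 * p))) with hA3
    have hsub : (univ.filter fun u => u ∉ X0 ∧ G.Adj v u ∧ a ≤ E (h u) ∧
        E (h u) < a + (2 * p - 1)) ⊆ (A1 ∪ A2) ∪ A3 := by
      intro u hu
      simp only [mem_filter, mem_univ, true_and] at hu
      obtain ⟨hu0, huv, ha1, ha2⟩ := hu
      rcases Nat.lt_or_ge (h u) (s * k) with ht | ht
      · rw [h2 u hu0 ht, hE1 _ _ (hf u) (hcol u)] at ha1 ha2
        apply mem_union_left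
        have h6 : (f u * (k + 2 * p) + col u) / (k + 2 * p) = f u := by
          rw [Nat.add_comm, Nat.add_mul_div_right _ _ hb,
            Nat.div_eq_of_lt (by have := hcol u; omega), Nat.zero_add]
        have h7 : a / (k + 2 * p) ≤ f u := by
          rw [← h6]
          exact Nat.div_le_div_right ha1
        have h8 : f u ≤ a / (k + 2 * p) + 1 := by
          rw [← h6, ← Nat.add_div_right a hb]
          exact Nat.div_le_div_right (by omega)
        rcases Nat.eq_or_lt_of_le h7 with h9 | h9
        · apply mem_union_left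
          simp only [hA1, mem_filter, mem_univ, true_and]
          exact ⟨huv, h9.symm⟩
        · apply mem_union_right
          simp only [hA2, mem_filter, mem_univ, true_and]
          exact ⟨huv, by omega⟩
      · apply mem_union_right
        rw [hE2 _ ht] at ha1 ha2
        simp only [hA3, mem_biUnion, mem_Ico, mem_filter, mem_univ, true_and]
        exact ⟨s * (k + 2 * p) + (h u - s * k), ⟨ha1, ha2⟩, hu0, by omega⟩
    have hc3 : A3.card ≤ (2 * p - 1) * 2 := by
      refine (card_biUnion_le_card_mul _ _ 2 fun j _ => h4 _ (by omega)).trans ?_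
      rw [Nat.card_Ico, Nat.add_sub_cancel_left]
    have hc : ((univ.filter fun u => u ∉ X0 ∧ G.Adj v u ∧ a ≤ E (h u) ∧
        E (h u) < a + (2 * p - 1)).card : ℝ) ≤ (A1.card : ℝ) + A2.card + A3.card := by
      have h6 := (card_le_card hsub).trans (card_union_le _ _)
      have h7 := card_union_le A1 A2
      have h8 : (univ.filter fun u => u ∉ X0 ∧ G.Adj v u ∧ a ≤ E (h u) ∧
        E (h u) < a + (2 * p - 1)).card ≤ A1.card + A2.card + A3.card := by omega
      exact_mod_cast h8
    have hs' : (0 : ℝ) < s := by exact_mod_cast hs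
    have hcA : ∀ i, (((univ.filter fun u => G.Adj v u ∧ f u = i).card : ℕ) : ℝ) ≤
        2 * (Δ : ℝ) / s := by
      intro i
      rw [le_div_iff₀ hs']
      exact_mod_cast hfc v i
    have hc1 := hcA (a / (k + 2 * p))
    have hc2 := hcA (a / (k + 2 * p) + 1)
    rw [← hA1] at hc1
    rw [← hA2] at hc2
    have hc3' : (A3.card : ℝ) ≤ 4 * p := by
      have : A3.card ≤ 4 * p := by omega
      exact_mod_cast this
    have h9 : 4 * (Δ : ℝ) / s = 2 * (Δ : ℝ) / s + 2 * (Δ : ℝ) / s := by ring
    rw [h9]
    linarith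

end Pool.Agent.H71.SX
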