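import Mathlib
import Pool.Agent.H71.SX.Defs
import Pool.Agent.H71.SX.Evn

/-!
CEV: the labelling for an even number of vertices.
-/

set_option autoImplicit false

namespace Pool.Agent.H71.SX

open Finset Classical
open Pool.Agent.H71.DN

theorem evenP {V : Type} [Fintype V] (e : V → ℕ)
    (h : ∀ j, Even (univ.filter fun v => e v = j).card) (P : ℕ → Prop) :
    Even (univ.filter fun v => P (e v)).card := by
  have h1 : (univ.filter fun v => P (e v)).card =
      ∑ j ∈ (univ.image e).filter P, (univ.filter fun v => e v = j).card := by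
    rw [Finset.card_eq_sum_card_fiberwise (f := e) (t := (univ.image e).filter P)]
    · refine Finset.sum_congr rfl fun j hj => ?_
      refine congrArg Finset.card ?_
      ext v
      simp only [mem_filter, mem_univ, true_and]
      constructor
      · exact fun h => h.2
      · intro hv
        refine ⟨?_, hv⟩
        rw [hv]
        exact (mem_filter.1 hj).2
    · intro v hv
      have hv' := (mem_filter.1 (Finset.mem_coe.1 hv)).2
      exact Finset.mem_coe.2 (mem_filter.2 ⟨mem_image_of_mem _ (mem_univ _), hv'⟩)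
  rw [h1]
  exact Finset.even_sum _ fun j _ => h j

theorem cev {V : Type} [Fintype V] (G : SimpleGraph V) (Δ k s p : ℕ)
    (col f : V → ℕ) (hp : 1 ≤ p) (hs : 1 ≤ s) (hcol : ∀ v, col v < k)
    (hprop : ∀ u v, G.Adj u v → col u ≠ col v) (hf : ∀ v, f v < s)
    (hfc : ∀ v i, (univ.filter fun u => G.Adj v u ∧ f u = i).card * s ≤ 2 * Δ)
    (hΔ : ∀ v, dg G v ≤ Δ) (hev : Even (Fintype.card V))
    (hbig : 2 * Δ + 4 * (s * k) < Fintype.card V) :
    ∃ c : V → ℕ, LY G (2 * s * (k + 2 * p)) p c (4 * (Δ : ℝ) / s + 4 * p) := by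
  obtain ⟨e, h1, h2, h3, h4⟩ := evn G Δ k s p ∅ col f hp hs hcol hprop hf hfc hΔ
    (by rw [sdiff_empty, card_univ]; exact hev) (by rw [card_empty]; omega)
  have h2' : ∀ j, Even (univ.filter fun v => e v = j).card := by
    intro j
    have := h2 j
    simpa using this
  refine ⟨e, fun v => h1 v (notMem_empty v), fun u v huv => h3 u (notMem_empty u) v
    (notMem_empty v) huv, ?_, ?_⟩
  · intro ℓ _
    refine (congrArg Even (congrArg Finset.card ?_)).mp
      (evenP e h2' (fun x => ¬ (x < ℓ + p ∧ ℓ < x + p)))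
    ext v
    simp only [mem_filter, mem_univ, true_and]
  · intro ℓ v
    refine le_trans ?_ (h4 v (ℓ + 1 - p))
    refine Nat.cast_le.2 (card_le_card fun u hu => ?_)
    simp only [mem_filter, mem_univ, true_and] at hu ⊢
    exact ⟨notMem_empty u, hu.1, by omega, by omega⟩

end Pool.Agent.H71.SX
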