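import Mathlib
import Pool.Agent.H71.SX.Defs

/-!
CO1: the labelling for `n = #V` odd, `p = 1`: all the classes are odd.

`oddc`. Let `J` be the set of the nonempty classes `j < m` of `g`. For `j ∈ J` choose `y j` with `g (y j) = j`.
 Pieces: for `j ∈ J` with `#{g = j}` odd the class itself; for `j ∈ J` with `#{g = j}` even (so `≥ 2`) the two
 pieces `{y j}` and `{g = j} \ {y j}` (odd). So `K ≤ 2 m` pieces, all odd, each inside a class. Number
 them by `[0, K)`. (For example by induction on `m`; or let `P : Finset ℕ` be the set of the values of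
 `d v := 2 * g v + (if #{g = g v} is even and v = y (g v) then 1 else 0)`, `#P ≤ 2 m`, `P ⊆ [0, 2 m)`, and
 `cl v := #{x ∈ P : x < d v}`, `K := #P`: the rank of `d v` in `P`; `cl u = cl v` iff `d u = d v`, and every
 `j < K` is the rank of exactly one element of `P`, whose class `{d = x}` is odd.)

`co1`. `g v := f v * k + col v`, `m = s k`; `oddc` gives `K`, `cl`; `c := cl`, `k' := K`. `prop`: `cl u = cl v` gives
 `g u = g v`, so `col u = col v`. `even`: `c v < ℓ + 1 ∧ ℓ < c v + 1` means `c v = ℓ`; for `ℓ < K + 1 - 1` the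
 class is odd and `n` is odd. `loc`: the `u` with `c u = ℓ` all have the same `g u`, so the same `f u`: at most
 `2 Δ / s` neighbours of `v`, by `hfc`.
-/

set_option autoImplicit false

namespace Pool.Agent.H71.SX

open Finset Classical
open Pool.Agent.H71.DN

theorem oddc {V : Type} [Fintype V] (m : ℕ) (g : V → ℕ) (hg : ∀ v, g v < m) :
    ∃ (K : ℕ) (cl : V → ℕ), K ≤ 2 * m ∧ (∀ v, cl v < K) ∧
      (∀ j < K, Odd (univ.filter fun v => cl v = j).card) ∧
      ∀ u v, cl u = cl v → g u = g v := by
  rcases isEmpty_or_nonempty V with hV | hV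
  · exact ⟨0, fun _ => 0, Nat.zero_le _, fun v => (hV.false v).elim,
      fun j hj => absurd hj (Nat.not_lt_zero j), fun u => (hV.false u).elim⟩
  obtain ⟨y, hy⟩ : ∃ y : ℕ → V, ∀ v, g (y (g v)) = g v :=
    ⟨Function.invFun g, fun v => Function.invFun_eq ⟨v, rfl⟩⟩
  obtain ⟨e, he⟩ : ∃ e : V → ℕ, ∀ v, e v =
      if Even (univ.filter fun x => g x = g v).card ∧ v = y (g v) then 1 else 0 :=
    ⟨_, fun v => rfl⟩
  have he1 : ∀ v, e v ≤ 1 := by
    intro v
    rw [he]
    split_ifs <;> omega
  obtain ⟨d, hd⟩ : ∃ d : V → ℕ, ∀ v, d v = 2 * g v + e v := ⟨_, fun v => rfl⟩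
  have hdg : ∀ u v, d u = d v → g u = g v := by
    intro u v h
    rw [hd, hd] at h
    have h1 := he1 u
    have h2 := he1 v
    omega
  have hde : ∀ u v, d u = d v → e u = e v := by
    intro u v h
    have h0 := hdg u v h
    rw [hd, hd] at h
    omega
  obtain ⟨P, hP⟩ : ∃ P : Finset ℕ, P = univ.image d := ⟨_, rfl⟩
  have hmem : ∀ v, d v ∈ P := fun v => by
    rw [hP]
    exact mem_image_of_mem d (mem_univ v)
  have hcard : P.card ≤ 2 * m := by
    have h1 : P ⊆ range (2 * m) := by
      intro x hx
      rw [hP, mem_image] at hx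
      obtain ⟨v, -, rfl⟩ := hx
      rw [mem_range, hd]
      have h1 := hg v
      have h2 := he1 v
      omega
    have h2 := card_le_card h1
    rwa [card_range] at h2
  refine ⟨P.card, fun v => (P.equivFin ⟨d v, hmem v⟩ : Fin P.card).1, hcard,
    fun v => (P.equivFin ⟨d v, hmem v⟩).2, ?_, ?_⟩
  · intro j hj
    have hPm : ∀ x ∈ P, ∃ v0, d v0 = x := by
      intro x hx
      rw [hP, mem_image] at hx
      obtain ⟨v, -, hv⟩ := hx
      exact ⟨v, hv⟩
    obtain ⟨v0, hv0⟩ : ∃ v0, d v0 = (P.equivFin.symm ⟨j, hj⟩).1 :=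
      hPm _ (P.equivFin.symm ⟨j, hj⟩).2
    have hset : (univ.filter fun v => (P.equivFin ⟨d v, hmem v⟩ : Fin P.card).1 = j) =
        univ.filter fun v => d v = d v0 := by
      ext v
      rw [mem_filter, mem_filter]
      refine and_congr_right fun _ => ?_
      constructor
      · intro h
        have h2 : P.equivFin ⟨d v, hmem v⟩ = ⟨j, hj⟩ := Fin.ext h
        have h3 := congrArg P.equivFin.symm h2
        rw [Equiv.symm_apply_apply] at h3
        rw [hv0, ← h3]
      · intro h
        have h2 : (⟨d v, hmem v⟩ : P) = P.equivFin.symm ⟨j, hj⟩ := Subtype.ext (h.trans hv0)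
        rw [h2, Equiv.apply_symm_apply]
    rw [hset]
    by_cases hev : Even (univ.filter fun x => g x = g v0).card
    · by_cases hy0 : v0 = y (g v0)
      · have e1 : e v0 = 1 := by rw [he, if_pos ⟨hev, hy0⟩]
        have h2 : (univ.filter fun v => d v = d v0) = {v0} := by
          ext v
          rw [mem_filter, mem_singleton]
          constructor
          · rintro ⟨-, h⟩
            have h3 := hde _ _ h
            rw [e1, he] at h3
            split_ifs at h3 with h4
            rw [h4.2, hdg _ _ h]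
            exact hy0.symm
          · rintro rfl
            exact ⟨mem_univ _, rfl⟩
        rw [h2, card_singleton]
        exact odd_one
      · have e0 : e v0 = 0 := by rw [he, if_neg (fun h => hy0 h.2)]
        have h2 : (univ.filter fun v => d v = d v0) =
            (univ.filter fun v => g v = g v0).erase (y (g v0)) := by
          ext v
          rw [mem_filter, mem_erase, mem_filter]
          constructor
          · rintro ⟨-, h⟩
            refine ⟨?_, mem_univ _, hdg _ _ h⟩
            rintro rfl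
            have h3 := hde _ _ h
            rw [e0, he, if_pos ⟨by rw [hy]; exact hev, by rw [hy]⟩] at h3
            exact one_ne_zero h3
          · rintro ⟨h3, -, h4⟩
            refine ⟨mem_univ _, ?_⟩
            rw [hd, hd, h4, e0, he, if_neg]
            rintro ⟨-, h5⟩
            rw [h4] at h5
            exact h3 h5
        have h3 : y (g v0) ∈ univ.filter fun v => g v = g v0 := by
          rw [mem_filter]
          exact ⟨mem_univ _, hy v0⟩
        rw [h2, card_erase_of_mem h3]
        have h4 := card_pos.2 ⟨_, h3⟩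
        obtain ⟨t, ht⟩ := hev
        rw [ht] at h4 ⊢
        exact ⟨t - 1, by omega⟩
    · have h2 : (univ.filter fun v => d v = d v0) = univ.filter fun x => g x = g v0 := by
        ext v
        rw [mem_filter, mem_filter]
        refine and_congr_right fun _ => ⟨hdg _ _, fun h => ?_⟩
        rw [hd, hd, h, he, he, if_neg, if_neg]
        · exact fun h3 => hev h3.1
        · rintro ⟨h3, -⟩
          rw [h] at h3
          exact hev h3
      rw [h2]
      exact Nat.not_even_iff_odd.1 hev
  · intro u v h
    have h2 : P.equivFin ⟨d u, hmem u⟩ = P.equivFin ⟨d v, hmem v⟩ := Fin.ext h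
    have h3 := congrArg Subtype.val (P.equivFin.injective h2)
    exact hdg u v h3

theorem co1 {V : Type} [Fintype V] (G : SimpleGraph V) (Δ k s : ℕ)
    (col f : V → ℕ) (hs : 1 ≤ s) (hcol : ∀ v, col v < k)
    (hprop : ∀ u v, G.Adj u v → col u ≠ col v) (hf : ∀ v, f v < s)
    (hfc : ∀ v i, (univ.filter fun u => G.Adj v u ∧ f u = i).card * s ≤ 2 * Δ)
    (hodd : Odd (Fintype.card V)) :
    ∃ (c : V → ℕ) (k' : ℕ), k' ≤ 2 * (s * k) ∧ LY G k' 1 c (2 * (Δ : ℝ) / s) := by
  have hg : ∀ v, f v * k + col v < s * k := by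
    intro v
    have h1 := hcol v
    have h2 : (f v + 1) * k ≤ s * k := Nat.mul_le_mul_right k (hf v)
    rw [Nat.add_mul, Nat.one_mul] at h2
    omega
  obtain ⟨K, cl, hK, hlt, hcls, hinj⟩ := oddc (s * k) (fun v => f v * k + col v) hg
  have hcolg : ∀ u v, cl u = cl v → col u = col v := by
    intro u v h
    have h1 : (f u * k + col u) % k = (f v * k + col v) % k := by rw [hinj u v h]
    rwa [Nat.mul_add_mod', Nat.mul_add_mod', Nat.mod_eq_of_lt (hcol u),
      Nat.mod_eq_of_lt (hcol v)] at h1
  have hfg : ∀ u v, cl u = cl v → f u = f v := by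
    intro u v h
    have h1 : f u * k + col u = f v * k + col v := hinj u v h
    rw [hcolg u v h] at h1
    have hk : 0 < k := (Nat.zero_le _).trans_lt (hcol u)
    exact Nat.eq_of_mul_eq_mul_right hk (Nat.add_right_cancel h1)
  refine ⟨cl, K, hK, hlt, ?_, ?_, ?_⟩
  · intro u v hadj h
    exact hprop u v hadj (hcolg u v h)
  · intro ℓ hℓ
    have hℓ' : ℓ < K := by omega
    have h1 : (univ.filter fun v => ¬ (cl v < ℓ + 1 ∧ ℓ < cl v + 1)) =
        univ \ univ.filter fun v => cl v = ℓ := by
      ext v
      rw [mem_filter, mem_sdiff, mem_filter]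
      constructor
      · rintro ⟨-, h⟩
        refine ⟨mem_univ _, ?_⟩
        rintro ⟨-, h2⟩
        exact h (by omega)
      · rintro ⟨-, h⟩
        refine ⟨mem_univ _, ?_⟩
        rintro ⟨h2, h3⟩
        exact h ⟨mem_univ _, by omega⟩
    rw [h1, card_sdiff_of_subset (subset_univ _), card_univ]
    exact Nat.Odd.sub_odd hodd (hcls ℓ hℓ')
  · intro ℓ v
    have hs' : (0 : ℝ) < s := by exact_mod_cast hs
    rw [le_div_iff₀ hs']
    rcases (univ.filter fun u => G.Adj v u ∧ cl u < ℓ + 1 ∧ ℓ < cl u + 1).eq_empty_or_nonempty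
      with h0 | ⟨u0, hu0⟩
    · rw [h0, card_empty, Nat.cast_zero, zero_mul]
      positivity
    · rw [mem_filter] at hu0
      have h1 : (univ.filter fun u => G.Adj v u ∧ cl u < ℓ + 1 ∧ ℓ < cl u + 1) ⊆
          univ.filter fun u => G.Adj v u ∧ f u = f u0 := by
        intro u hu
        rw [mem_filter] at hu ⊢
        exact ⟨mem_univ _, hu.2.1, hfg u u0 (by omega)⟩
      have h2 := card_le_card h1
      have h3 := hfc v (f u0)
      have h4 := (Nat.mul_le_mul_right s h2).trans h3
      exact_mod_cast h4

end Pool.Agent.H71.SX
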