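import Mathlib
import Pool.Agent.H71.SX.Defs
import Pool.Agent.H71.SX.Evn

/-!
COD: the labelling for `n = #V` odd, `p ≥ 2`: every window contains exactly one of the special
labels `r m = p - 1 + m (2 p - 1)`, which are given to single vertices; all the other classes are even.

Proof.  `T0 := 2 s (k + 2 p)`, `w := 2 p - 1`, `J := 2 * (T0 / (w - 1) + 1)` (even; `w - 1 ≥ 2`),
`r m := p - 1 + m w`, `k' := r J + 1 = p + J w`, `pos t := t + (t + (p - 1)) / (w - 1)`.
Facts: (a) `pos` is strictly increasing, `pos t' - pos t ≥ t' - t` for `t ≤ t'`. (b) `pos t ≠ r m`: write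
`t + (p - 1) = y (w - 1) + x`, `x < w - 1`: `pos t = y (w - 1) + x - (p - 1) + y = y w + x - (p - 1)`, i.e.
`pos t + (p - 1) = y w + x` with `x ≤ w - 2`, while `r m + (p - 1) = 2 p - 2 + m w = m w + (w - 1)`.
(c) `pos t < r J` for `t < T0`: `y ≤ (T0 + p - 1) / (w - 1) ≤ T0 / (w - 1) + 1 < J` (as `p - 1 ≤ w - 1`), so
`pos t ≤ y w + x ≤ J w ≤ r J`, and `≠`. (d) `k' = p + J w ≤ p + 3 T0 + 2 w ≤ 3 T0 + 5 p`
(`J w ≤ 2 (T0 / (w - 1)) w + 2 w ≤ 3 T0 + 2 w`, because `2 w ≤ 3 (w - 1)`). (e) `J + 1 ≤ T0 + 3` (`w - 1 ≥ 2`).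
Choose `X0` with `#X0 = J + 1` and a bijection: `x : V → ℕ` injective on `X0` with values `< J + 1`, onto
(`Finset.equivFin`; or `x v` for `v ∈ X0` from `X0.equivFin`). `#(univ \ X0) = n - (J + 1)` is even. `evn`
(its `hbig` from `hbig` and (e)) gives `e`. Let `c v := r (x v)` for `v ∈ X0` and `c v := pos (e v)` otherwise.
 * `lt`: (c) and `r m ≤ r J < k'`.  `prop`: both in `X0`: `x` is injective, `u ≠ v`; one in `X0`: (b); none:
   `pos` is injective, `e` proper.
 * `even`, `ℓ < k' + p - 1`: `#{v ∉ X0 : c v in the window}` is the sum over the `t < T0` with `pos t` in the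
   window of `#{v ∉ X0 : e v = t}`: even. The windows `{ℓ : |r m - ℓ| < p} = [m w, m w + w - 1]`,
   `m = 0, ..., J`, partition `[0, (J + 1) w) = [0, k' + p - 1)`: so exactly one `v ∈ X0` is in the window of
   `ℓ` (`m = ℓ / w`). So `#(U ℓ)` is odd and `n` is odd.
 * `loc`: at most one vertex of `X0`; for `u ∉ X0` with `pos (e u)` in the window (an interval of `2 p - 1`
   consecutive integers): by (a) the `e u` lie in an interval `[a, a + (2 p - 1))`, `a` the smallest `t` with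
   `pos t` in the window: at most `4 Δ / s + 4 p`.
-/

set_option autoImplicit false

namespace Pool.Agent.H71.SX

open Finset Classical
open Pool.Agent.H71.DN

/-- position of an ordinary label -/
def codPos (q t : ℕ) : ℕ := t + (t + q) / (2 * q)

/-- special labels -/
def codR (q m : ℕ) : ℕ := q + m * (2 * q + 1)

theorem cod_pos_add {q : ℕ} (t : ℕ) :
    codPos q t + q = (t + q) / (2 * q) * (2 * q + 1) + (t + q) % (2 * q) := by
  unfold codPos
  have h := Nat.div_add_mod (t + q) (2 * q)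
  have h2 : (t + q) / (2 * q) * (2 * q + 1) = 2 * q * ((t + q) / (2 * q)) + (t + q) / (2 * q) := by
    ring
  omega

theorem cod_pos_mono {q t t' : ℕ} (h : t ≤ t') : codPos q t + t' ≤ codPos q t' + t := by
  unfold codPos
  have h2 : (t + q) / (2 * q) ≤ (t' + q) / (2 * q) := Nat.div_le_div_right (by omega)
  omega

theorem cod_pos_inj {q t t' : ℕ} (h : codPos q t = codPos q t') : t = t' := by
  rcases le_total t t' with h1 | h1
  · have := cod_pos_mono (q := q) h1
    omega
  · have := cod_pos_mono (q := q) h1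
    omega

theorem cod_pos_ne {q : ℕ} (hq : 1 ≤ q) (t m : ℕ) : codPos q t ≠ codR q m := by
  intro h
  have h1 := cod_pos_add (q := q) t
  have h2 : (t + q) % (2 * q) < 2 * q := Nat.mod_lt _ (by omega)
  rw [h] at h1
  unfold codR at h1
  generalize (t + q) / (2 * q) = y at h1
  generalize (t + q) % (2 * q) = x at h1 h2
  rcases Nat.lt_or_ge m y with h3 | h3
  · have h4 : (m + 1) * (2 * q + 1) ≤ y * (2 * q + 1) := Nat.mul_le_mul_right _ h3
    have h5 : (m + 1) * (2 * q + 1) = m * (2 * q + 1) + (2 * q + 1) := by ring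
    omega
  · have h4 : y * (2 * q + 1) ≤ m * (2 * q + 1) := Nat.mul_le_mul_right _ h3
    omega

theorem cod_r_lt {q m m' : ℕ} (h : m < m') : codR q m < codR q m' := by
  unfold codR
  have h4 : (m + 1) * (2 * q + 1) ≤ m' * (2 * q + 1) := Nat.mul_le_mul_right _ h
  have h5 : (m + 1) * (2 * q + 1) = m * (2 * q + 1) + (2 * q + 1) := by ring
  omega

theorem cod_r_inj {q m m' : ℕ} (h : codR q m = codR q m') : m = m' := by
  rcases lt_trichotomy m m' with h1 | h1 | h1
  · have := cod_r_lt (q := q) h1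
    omega
  · exact h1
  · have := cod_r_lt (q := q) h1
    omega

theorem cod_div {q : ℕ} (hq : 1 ≤ q) (T : ℕ) : 2 * (T / (2 * q)) ≤ T := by
  have h1 : T / (2 * q) * (2 * q) ≤ T := Nat.div_mul_le_self _ _
  have h2 : T / (2 * q) * 2 ≤ T / (2 * q) * (2 * q) := Nat.mul_le_mul_left _ (by omega)
  omega

theorem cod_pos_lt {q : ℕ} (hq : 1 ≤ q) {T t : ℕ} (h : t < T) :
    codPos q t < codR q (2 * (T / (2 * q) + 1)) := by
  have h1 := cod_pos_add (q := q) t
  have h2 : (t + q) % (2 * q) < 2 * q := Nat.mod_lt _ (by omega)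
  have h3 : (t + q) / (2 * q) ≤ T / (2 * q) + 1 := by
    rw [← Nat.add_div_right T (by omega : 0 < 2 * q)]
    exact Nat.div_le_div_right (by omega)
  have h4 : (t + q) / (2 * q) * (2 * q + 1) ≤ (T / (2 * q) + 1) * (2 * q + 1) :=
    Nat.mul_le_mul_right _ h3
  unfold codR
  have h5 : 2 * (T / (2 * q) + 1) * (2 * q + 1) =
      (T / (2 * q) + 1) * (2 * q + 1) + (T / (2 * q) + 1) * (2 * q + 1) := by ring
  have h6 : 1 * (2 * q + 1) ≤ (T / (2 * q) + 1) * (2 * q + 1) :=
    Nat.mul_le_mul_right _ (Nat.le_add_left 1 _)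
  omega

theorem cod_k {q : ℕ} (hq : 1 ≤ q) (T : ℕ) :
    codR q (2 * (T / (2 * q) + 1)) + 1 ≤ 3 * T + 5 * (q + 1) := by
  have h1 : T / (2 * q) * (2 * q) ≤ T := Nat.div_mul_le_self _ _
  have h2 := cod_div hq T
  unfold codR
  have h5 : 2 * (T / (2 * q) + 1) * (2 * q + 1) =
      2 * (T / (2 * q) * (2 * q)) + 2 * (T / (2 * q)) + 2 * (2 * q + 1) := by ring
  omega

theorem cod_window {q ℓ m : ℕ} :
    (codR q m < ℓ + (q + 1) ∧ ℓ < codR q m + (q + 1)) ↔ m = ℓ / (2 * q + 1) := by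
  unfold codR
  constructor
  · rintro ⟨h1, h2⟩
    symm
    rw [Nat.div_eq_iff (by omega)]
    constructor
    · omega
    · omega
  · intro h
    have h3 := Nat.div_add_mod ℓ (2 * q + 1)
    have h4 : ℓ % (2 * q + 1) < 2 * q + 1 := Nat.mod_lt _ (by omega)
    rw [← h] at h3
    have h5 : (2 * q + 1) * m = m * (2 * q + 1) := by ring
    constructor
    · omega
    · omega

theorem cod {V : Type} [Fintype V] (G : SimpleGraph V) (Δ k s p : ℕ)
    (col f : V → ℕ) (hp : 2 ≤ p) (hs : 1 ≤ s) (hcol : ∀ v, col v < k)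
    (hprop : ∀ u v, G.Adj u v → col u ≠ col v) (hf : ∀ v, f v < s)
    (hfc : ∀ v i, (univ.filter fun u => G.Adj v u ∧ f u = i).card * s ≤ 2 * Δ)
    (hΔ : ∀ v, dg G v ≤ Δ) (hodd : Odd (Fintype.card V))
    (hbig : 2 * s * (k + 2 * p) + 3 + 2 * Δ + 4 * (s * k) < Fintype.card V) :
    ∃ (c : V → ℕ) (k' : ℕ), k' ≤ 6 * s * (k + 2 * p) + 5 * p ∧
      LY G k' p c (4 * (Δ : ℝ) / s + 4 * p + 1) := by
  obtain ⟨q, rfl⟩ : ∃ q, p = q + 1 := ⟨p - 1, by omega⟩
  have hq : 1 ≤ q := by omega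
  obtain ⟨T, hT⟩ : ∃ T, T = 2 * s * (k + 2 * (q + 1)) := ⟨_, rfl⟩
  obtain ⟨J, hJ⟩ : ∃ J, J = 2 * (T / (2 * q) + 1) := ⟨_, rfl⟩
  have hJT : J + 1 ≤ T + 3 := by
    have := cod_div hq T
    omega
  rw [← hT] at hbig
  obtain ⟨X0, -, hX0⟩ := Finset.exists_subset_card_eq
    (show J + 1 ≤ (univ : Finset V).card by rw [Finset.card_univ]; omega)
  have hev : Even (univ \ X0).card := by
    rw [Finset.card_sdiff_of_subset (Finset.subset_univ _), hX0, Finset.card_univ]
    obtain ⟨a, ha⟩ := hodd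
    exact ⟨a - (T / (2 * q) + 1), by omega⟩
  obtain ⟨e, he1, he2, he3, he4⟩ := evn G Δ k s (q + 1) X0 col f (by omega) hs hcol hprop hf hfc hΔ hev
    (by rw [hX0]; omega)
  rw [← hT] at he1
  have hw : 2 * (q + 1) - 1 = 2 * q + 1 := by omega
  rw [hw] at he4
  let φ := Finset.equivFinOfCardEq hX0
  obtain ⟨x, hx⟩ : ∃ x : V → ℕ, ∀ v (h : v ∈ X0), x v = (φ ⟨v, h⟩ : ℕ) :=
    ⟨fun v => if h : v ∈ X0 then (φ ⟨v, h⟩ : ℕ) else 0, fun v h => dif_pos h⟩
  have hxlt : ∀ v ∈ X0, x v < J + 1 := fun v h => by rw [hx v h]; exact (φ ⟨v, h⟩).2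
  have hxinj : ∀ u ∈ X0, ∀ v ∈ X0, x u = x v → u = v := by
    intro u hu v hv h
    rw [hx u hu, hx v hv] at h
    have h1 := φ.injective (Fin.ext h)
    exact congrArg Subtype.val h1
  have hxsurj : ∀ m < J + 1, ∃ v ∈ X0, x v = m := by
    intro m hm
    refine ⟨(φ.symm ⟨m, hm⟩ : V), (φ.symm ⟨m, hm⟩).2, ?_⟩
    rw [hx _ (φ.symm ⟨m, hm⟩).2]
    have h1 : (⟨(φ.symm ⟨m, hm⟩ : V), (φ.symm ⟨m, hm⟩).2⟩ : X0) = φ.symm ⟨m, hm⟩ := rfl
    rw [h1, Equiv.apply_symm_apply]
  obtain ⟨c, hc⟩ : ∃ c : V → ℕ, ∀ v, c v = if v ∈ X0 then codR q (x v) else codPos q (e v) :=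
    ⟨_, fun _ => rfl⟩
  have hc1 : ∀ v ∈ X0, c v = codR q (x v) := fun v h => by rw [hc, if_pos h]
  have hc2 : ∀ v, v ∉ X0 → c v = codPos q (e v) := fun v h => by rw [hc, if_neg h]
  -- at most one special vertex in a window
  have hone : ∀ ℓ, (univ.filter fun v => v ∈ X0 ∧ c v < ℓ + (q + 1) ∧ ℓ < c v + (q + 1)).card ≤ 1 := by
    intro ℓ
    rw [Finset.card_le_one]
    intro a ha b hb
    rw [Finset.mem_filter] at ha hb
    obtain ⟨-, ha0, ha⟩ := ha
    obtain ⟨-, hb0, hb⟩ := hb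
    rw [hc1 a ha0, cod_window] at ha
    rw [hc1 b hb0, cod_window] at hb
    exact hxinj a ha0 b hb0 (ha.trans hb.symm)
  refine ⟨c, codR q J + 1, ?_, ?_, ?_, ?_, ?_⟩
  · have h1 := cod_k hq T
    rw [← hJ] at h1
    have h2 : 6 * s * (k + 2 * (q + 1)) = 3 * (2 * s * (k + 2 * (q + 1))) := by ring
    rw [h2, ← hT]
    exact h1
  · intro v
    by_cases hv : v ∈ X0
    · rw [hc1 v hv]
      rcases Nat.lt_or_ge (x v) J with h1 | h1
      · have := cod_r_lt (q := q) h1
        omega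
      · have h2 : x v = J := by
          have := hxlt v hv
          omega
        rw [h2]
        omega
    · rw [hc2 v hv]
      have := cod_pos_lt hq (he1 v hv)
      rw [← hJ] at this
      omega
  · intro u v huv
    by_cases hu : u ∈ X0
    · by_cases hv : v ∈ X0
      · rw [hc1 u hu, hc1 v hv]
        intro h
        exact huv.ne (hxinj u hu v hv (cod_r_inj h))
      · rw [hc1 u hu, hc2 v hv]
        exact fun h => cod_pos_ne hq _ _ h.symm
    · by_cases hv : v ∈ X0
      · rw [hc2 u hu, hc1 v hv]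
        exact cod_pos_ne hq _ _
      · rw [hc2 u hu, hc2 v hv]
        intro h
        exact he3 u hu v hv huv (cod_pos_inj h)
  · intro ℓ hℓ
    -- the special vertex
    have hcard1 : (univ.filter fun v => v ∈ X0 ∧ c v < ℓ + (q + 1) ∧ ℓ < c v + (q + 1)).card = 1 := by
      apply le_antisymm (hone ℓ)
      have h1 : ℓ / (2 * q + 1) < J + 1 := by
        rw [Nat.div_lt_iff_lt_mul (by omega)]
        have h2 : codR q J + 1 + (q + 1) - 1 = (J + 1) * (2 * q + 1) := by
          unfold codR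
          have h3 : (J + 1) * (2 * q + 1) = J * (2 * q + 1) + (2 * q + 1) := by ring
          omega
        omega
      obtain ⟨v, hv, hxv⟩ := hxsurj _ h1
      refine Finset.card_pos.2 ⟨v, ?_⟩
      rw [Finset.mem_filter]
      refine ⟨Finset.mem_univ _, hv, ?_⟩
      rw [hc1 v hv, cod_window]
      exact hxv
    have hcard2 : Even
        (univ.filter fun v => v ∉ X0 ∧ c v < ℓ + (q + 1) ∧ ℓ < c v + (q + 1)).card := by
      have h1 : ∀ v ∈ (univ.filter fun v => v ∉ X0 ∧ c v < ℓ + (q + 1) ∧ ℓ < c v + (q + 1)),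
          e v ∈ range T := by
        intro v hv
        rw [Finset.mem_filter] at hv
        exact Finset.mem_range.2 (he1 v hv.2.1)
      rw [Finset.card_eq_sum_card_fiberwise h1]
      refine Finset.even_sum _ fun t _ => ?_
      by_cases ht : codPos q t < ℓ + (q + 1) ∧ ℓ < codPos q t + (q + 1)
      · have h2 : ((univ.filter fun v => v ∉ X0 ∧ c v < ℓ + (q + 1) ∧ ℓ < c v + (q + 1)).filter
            fun v => e v = t) = univ.filter fun v => v ∉ X0 ∧ e v = t := by
          ext v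
          simp only [Finset.mem_filter, Finset.mem_univ, true_and]
          constructor
          · rintro ⟨⟨h3, -⟩, h4⟩
            exact ⟨h3, h4⟩
          · rintro ⟨h3, h4⟩
            refine ⟨⟨h3, ?_⟩, h4⟩
            rw [hc2 v h3, h4]
            exact ht
        rw [h2]
        exact he2 t
      · have h2 : ((univ.filter fun v => v ∉ X0 ∧ c v < ℓ + (q + 1) ∧ ℓ < c v + (q + 1)).filter
            fun v => e v = t) = ∅ := by
          rw [Finset.eq_empty_iff_forall_notMem]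
          intro v hv
          simp only [Finset.mem_filter, Finset.mem_univ, true_and] at hv
          obtain ⟨⟨h3, h4⟩, h5⟩ := hv
          rw [hc2 v h3, h5] at h4
          exact ht h4
        rw [h2, Finset.card_empty]
        exact Even.zero
    have hsplit : (univ.filter fun v => c v < ℓ + (q + 1) ∧ ℓ < c v + (q + 1)).card =
        (univ.filter fun v => v ∈ X0 ∧ c v < ℓ + (q + 1) ∧ ℓ < c v + (q + 1)).card +
        (univ.filter fun v => v ∉ X0 ∧ c v < ℓ + (q + 1) ∧ ℓ < c v + (q + 1)).card := by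
      rw [← Finset.card_filter_add_card_filter_not (s := univ.filter fun v =>
        c v < ℓ + (q + 1) ∧ ℓ < c v + (q + 1)) (fun v => v ∈ X0), Finset.filter_filter,
        Finset.filter_filter]
      congr 2
      · ext v
        simp only [Finset.mem_filter, Finset.mem_univ, true_and]
        tauto
      · ext v
        simp only [Finset.mem_filter, Finset.mem_univ, true_and]
        tauto
    have htot := Finset.card_filter_add_card_filter_not (s := (univ : Finset V))
      (fun v => c v < ℓ + (q + 1) ∧ ℓ < c v + (q + 1))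
    rw [hsplit, hcard1, Finset.card_univ] at htot
    obtain ⟨a, ha⟩ := hodd
    obtain ⟨b, hb⟩ := hcard2
    refine ⟨a - b, ?_⟩
    omega
  · intro ℓ v
    have hsplit : (univ.filter fun u => G.Adj v u ∧ c u < ℓ + (q + 1) ∧ ℓ < c u + (q + 1)).card ≤
        (univ.filter fun u => u ∈ X0 ∧ c u < ℓ + (q + 1) ∧ ℓ < c u + (q + 1)).card +
        (univ.filter fun u => u ∉ X0 ∧ G.Adj v u ∧ c u < ℓ + (q + 1) ∧ ℓ < c u + (q + 1)).card := by
      refine (Finset.card_le_card ?_).trans (Finset.card_union_le _ _)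
      intro u hu
      simp only [Finset.mem_filter, Finset.mem_univ, true_and, Finset.mem_union] at hu ⊢
      tauto
    have h1 := hone ℓ
    have h2 : ((univ.filter fun u => u ∉ X0 ∧ G.Adj v u ∧ c u < ℓ + (q + 1) ∧
        ℓ < c u + (q + 1)).card : ℝ) ≤ 4 * (Δ : ℝ) / s + 4 * ((q + 1 : ℕ) : ℝ) := by
      rcases Finset.eq_empty_or_nonempty (univ.filter fun u => u ∉ X0 ∧ G.Adj v u ∧
        c u < ℓ + (q + 1) ∧ ℓ < c u + (q + 1)) with h3 | h3
      · rw [h3, Finset.card_empty, Nat.cast_zero]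
        positivity
      · obtain ⟨a, ha, hmin⟩ := Finset.exists_min_image _ e h3
        refine le_trans ?_ (he4 v (e a))
        norm_cast
        apply Finset.card_le_card
        intro u hu
        have hmu := hmin u hu
        simp only [Finset.mem_filter, Finset.mem_univ, true_and] at hu ha ⊢
        obtain ⟨hu1, hu2, hu3, hu4⟩ := hu
        obtain ⟨ha1, ha2, ha3, ha4⟩ := ha
        rw [hc2 u hu1] at hu3 hu4
        rw [hc2 a ha1] at ha3 ha4
        refine ⟨hu1, hu2, hmu, ?_⟩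
        have h5 := cod_pos_mono (q := q) hmu
        omega
    have h3 : ((univ.filter fun u => G.Adj v u ∧ c u < ℓ + (q + 1) ∧ ℓ < c u + (q + 1)).card : ℝ) ≤
        1 + ((univ.filter fun u => u ∉ X0 ∧ G.Adj v u ∧ c u < ℓ + (q + 1) ∧
        ℓ < c u + (q + 1)).card : ℝ) := by
      have h4 := hsplit.trans (Nat.add_le_add_right h1 _)
      exact_mod_cast h4
    linarith

end Pool.Agent.H71.SX
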