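import Mathlib
import Pool.Agent.H71.SX.Defs
import Pool.Agent.H71.SX.Pmt

/-!
GRD: edge-disjoint matchings `mm ℓ`, `ℓ < L`, greedily.

Proof.  Induction on `j ≤ L`: there is `mm : ℕ → V → V` with, for all `ℓ < j`: `Inv (mm ℓ)`; `mm ℓ v = v` on
`U ℓ`; `mm ℓ v ≠ v → G.Adj v (mm ℓ v)`; `mm ℓ v ≠ v` for `v ∉ U ℓ` with `(1 - η) Δ ≤ dg G v`; and
`mm ℓ v ≠ v → mm ℓ v ≠ mm ℓ' v` for `ℓ ≠ ℓ'` both `< j`.
Step `j → j + 1` (`j < L`): `F.Adj a b := G.Adj a b ∧ ∀ ℓ < j, mm ℓ a ≠ b` (symmetric, as the `mm ℓ` are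
involutions: `mm ℓ b = a` iff `b = mm ℓ a`). The `G`-neighbours of `v` that are not `F`-neighbours are of
the form `mm ℓ v`, `ℓ < j`, so `dg G v ≤ dg F v + j ≤ dg F v + η Δ` (`j ≤ L ≤ η Δ`). `pmt` for `U j` gives `π`; set
`mm j := π` (`Function.update mm j π`). Disjointness: if `π v ≠ v` then `F.Adj v (π v)`, so
`mm ℓ v ≠ π v` for `ℓ < j`; if `mm ℓ v ≠ v` and `mm ℓ v = π v` then `π v ≠ v`, the same contradiction.
-/

set_option autoImplicit false

namespace Pool.Agent.H71.SX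

open Finset Classical
open Pool.Agent.H71.DN

/-- The unused edges. -/
def GrdF {V : Type} (G : SimpleGraph V) (j : ℕ) (mm : ℕ → V → V)
    (hinv : ∀ ℓ < j, Inv (mm ℓ)) : SimpleGraph V where
  Adj a b := G.Adj a b ∧ ∀ ℓ < j, mm ℓ a ≠ b
  symm := by
    constructor
    intro a b h
    refine ⟨h.1.symm, fun ℓ hℓ hc => ?_⟩
    refine h.2 ℓ hℓ ?_
    rw [← hc]
    exact hinv ℓ hℓ b
  loopless := ⟨fun a h => G.irrefl h.1⟩

theorem Grd_step {V : Type} [Fintype V] (G : SimpleGraph V) (j : ℕ) (mm : ℕ → V → V)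
    (hinv : ∀ ℓ < j, Inv (mm ℓ)) :
    ∃ F : SimpleGraph V, F ≤ G ∧ (∀ a b, F.Adj a b → ∀ ℓ < j, mm ℓ a ≠ b) ∧
      ∀ v, dg G v ≤ dg F v + j := by
  refine ⟨GrdF G j mm hinv, ?_, ?_, ?_⟩
  · intro a b h
    exact h.1
  · intro a b h
    exact h.2
  · intro v
    unfold dg
    have h1 : (univ.filter fun u => G.Adj v u) ⊆
        (univ.filter fun u => (GrdF G j mm hinv).Adj v u) ∪
          (Finset.range j).image (fun ℓ => mm ℓ v) := by
      intro u hu
      rw [Finset.mem_filter] at hu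
      rw [Finset.mem_union, Finset.mem_filter, Finset.mem_image]
      by_cases h : ∀ ℓ < j, mm ℓ v ≠ u
      · exact Or.inl ⟨Finset.mem_univ _, hu.2, h⟩
      · push Not at h
        obtain ⟨ℓ, hℓ, h⟩ := h
        exact Or.inr ⟨ℓ, Finset.mem_range.mpr hℓ, h⟩
    refine (Finset.card_le_card h1).trans ((Finset.card_union_le _ _).trans ?_)
    have h2 : ((Finset.range j).image (fun ℓ => mm ℓ v)).card ≤ j :=
      Finset.card_image_le.trans (Finset.card_range j).le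
    exact Nat.add_le_add_left h2 _

theorem grd {V : Type} [Fintype V] (G : SimpleGraph V) (Δ L : ℕ) (U : ℕ → Finset V) (γ η : ℝ)
    (hη : 0 < η) (hη8 : η ≤ 1 / 8) (hηγ : 10 * η ≤ γ) (hγηΔ : 3 ≤ γ * η * Δ)
    (hΔ : ∀ v, dg G v ≤ Δ) (hL : (L : ℝ) ≤ η * Δ)
    (hU : ∀ ℓ < L, ∀ v, (((U ℓ).filter fun u => G.Adj v u).card : ℝ) ≤ η * Δ)
    (hev : ∀ ℓ < L, Even (univ \ U ℓ).card) (hE : EE G Δ γ) (hB : FB G Δ γ) :
    ∃ mm : ℕ → V → V, PM G L U mm ∧
      ∀ ℓ < L, ∀ v, v ∉ U ℓ → (1 - η) * Δ ≤ (dg G v : ℝ) → mm ℓ v ≠ v := by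
  have key : ∀ j ≤ L, ∃ mm : ℕ → V → V, PM G j U mm ∧
      ∀ ℓ < j, ∀ v, v ∉ U ℓ → (1 - η) * Δ ≤ (dg G v : ℝ) → mm ℓ v ≠ v := by
    intro j
    induction j with
    | zero =>
      intro _
      refine ⟨fun _ v => v, ⟨?_, ?_, ?_, ?_⟩, ?_⟩
      · intro ℓ hℓ
        exact absurd hℓ (Nat.not_lt_zero _)
      · intro ℓ hℓ
        exact absurd hℓ (Nat.not_lt_zero _)
      · intro ℓ hℓ
        exact absurd hℓ (Nat.not_lt_zero _)
      · intro ℓ hℓ
        exact absurd hℓ (Nat.not_lt_zero _)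
      · intro ℓ hℓ
        exact absurd hℓ (Nat.not_lt_zero _)
    | succ j ih =>
      intro hj
      have hjL : j < L := hj
      obtain ⟨mm, hPM, hcov⟩ := ih (Nat.le_of_lt hjL)
      obtain ⟨F, hFG, hFm, hdg⟩ := Grd_step G j mm hPM.inv
      have hF : ∀ v, (dg G v : ℝ) ≤ dg F v + η * Δ := by
        intro v
        have h1 : (dg G v : ℝ) ≤ dg F v + j := by exact_mod_cast hdg v
        have h2 : (j : ℝ) ≤ L := by exact_mod_cast hjL.le
        linarith
      obtain ⟨π, hπi, hπU, hπF, hπc⟩ := pmt G F Δ (U j) γ η hη hη8 hηγ hγηΔ hFG hΔ hF (hU j hjL)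
        (hev j hjL) hE hB
      have hupj : Function.update mm j π j = π := Function.update_self _ _ _
      have hup : ∀ ℓ, ℓ ≠ j → Function.update mm j π ℓ = mm ℓ := fun ℓ h =>
        Function.update_of_ne h _ _
      have hcase : ∀ ℓ, ℓ < j + 1 → ℓ = j ∨ (ℓ < j ∧ ℓ ≠ j) := by
        intro ℓ hℓ
        omega
      refine ⟨Function.update mm j π, ⟨?_, ?_, ?_, ?_⟩, ?_⟩
      · intro ℓ hℓ
        rcases hcase ℓ hℓ with h | ⟨h, hn⟩
        · rw [h, hupj]
          exact hπi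
        · rw [hup ℓ hn]
          exact hPM.inv ℓ h
      · intro ℓ hℓ v hv
        rcases hcase ℓ hℓ with h | ⟨h, hn⟩
        · rw [h, hupj] at hv ⊢
          exact hFG (hπF v hv)
        · rw [hup ℓ hn] at hv ⊢
          exact hPM.adj ℓ h v hv
      · intro ℓ hℓ ℓ' hℓ' hne v hv
        rcases hcase ℓ hℓ with h | ⟨h, hn⟩
        · rcases hcase ℓ' hℓ' with h' | ⟨h', hn'⟩
          · exact absurd (h.trans h'.symm) hne
          · rw [h, hupj] at hv ⊢
            rw [hup ℓ' hn']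
            exact (hFm v (π v) (hπF v hv) ℓ' h').symm
        · rcases hcase ℓ' hℓ' with h' | ⟨h', hn'⟩
          · rw [hup ℓ hn] at hv ⊢
            rw [h', hupj]
            intro hc
            have hv' : π v ≠ v := by
              rw [← hc]
              exact hv
            exact hFm v (π v) (hπF v hv') ℓ h hc
          · rw [hup ℓ hn] at hv ⊢
            rw [hup ℓ' hn']
            exact hPM.dis ℓ h ℓ' h' hne v hv
      · intro ℓ hℓ v hv
        rcases hcase ℓ hℓ with h | ⟨h, hn⟩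
        · rw [h] at hv
          rw [h, hupj]
          exact hπU v hv
        · rw [hup ℓ hn]
          exact hPM.fix ℓ h v hv
      · intro ℓ hℓ v hv hd
        rcases hcase ℓ hℓ with h | ⟨h, hn⟩
        · rw [h] at hv
          rw [h, hupj]
          exact hπc v hv hd
        · rw [hup ℓ hn]
          exact hcov ℓ h v hv hd
  exact key L le_rfl

end Pool.Agent.H71.SX
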