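import Mathlib
import Pool.Agent.H71.SX.Defs
import Pool.Agent.H71.SX.Grd
import Pool.Agent.H71.DN.Fnl

/-!
COR: from the labelling to the Havet-Yu bound.
-/

set_option autoImplicit false

namespace Pool.Agent.H71.SX

open Finset Classical
open Pool.Agent.H71.DN

theorem core {V : Type} [Fintype V] (G : SimpleGraph V) (Δ p k' : ℕ) (c : V → ℕ) (γ η : ℝ)
    (hp : 1 ≤ p) (hη : 0 < η) (hη8 : η ≤ 1 / 8) (hηγ : 10 * η ≤ γ) (hγηΔ : 3 ≤ γ * η * Δ)
    (hΔ : ∀ v, dg G v ≤ Δ) (hE : EE G Δ γ) (hB : FB G Δ γ)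
    (hLY : LY G k' p c (η * Δ)) (hL : ((k' + p - 1 : ℕ) : ℝ) ≤ η * Δ) :
    H70.HY.HYLab G Δ p := by
  obtain ⟨U, hU⟩ : ∃ U : ℕ → Finset V, ∀ ℓ, U ℓ = univ.filter fun v =>
      c v < ℓ + p ∧ ℓ < c v + p := ⟨_, fun _ => rfl⟩
  obtain ⟨mm, hPM, hcov⟩ := grd G Δ (k' + p - 1) U γ η hη hη8 hηγ hγηΔ hΔ hL (by
      intro ℓ _ v
      refine le_trans ?_ (hLY.loc ℓ v)
      refine Nat.cast_le.2 (card_le_card fun u hu => ?_)
      rw [hU] at hu
      simp only [mem_filter, mem_univ, true_and] at hu ⊢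
      exact ⟨hu.2, hu.1.1, hu.1.2⟩) (by
      intro ℓ hℓ
      refine (congrArg Even (congrArg Finset.card ?_)).mp (hLY.even ℓ hℓ)
      rw [hU]
      ext v
      simp only [mem_filter, mem_univ, true_and, mem_sdiff]) hE hB
  have hΔ0 : (0 : ℝ) ≤ Δ := Nat.cast_nonneg _
  have hLΔ : ((k' + p - 1 : ℕ) : ℝ) ≤ Δ := by
    refine hL.trans ?_
    nlinarith
  have hLΔ' : k' + p - 1 ≤ Δ := by exact_mod_cast hLΔ
  refine final G Δ p k' hp c hLY.lt hLY.prop U mm hPM ?_ (by omega) ?_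
  · intro ℓ _ v h1 h2
    rw [hU]
    simp only [mem_filter, mem_univ, true_and]
    exact ⟨h1, h2⟩
  · intro v
    rcases le_or_gt ((1 - η) * Δ) (dg G v : ℝ) with h | h
    · have h1 : ((range (k' + p - 1)).filter fun ℓ => mm ℓ v = v) ⊆
          Finset.Ico (c v + 1 - p) (c v + p) := by
        intro ℓ hℓ
        rw [mem_filter, mem_range] at hℓ
        by_contra hcon
        refine hcov ℓ hℓ.1 v ?_ h hℓ.2
        rw [hU]
        intro hm
        simp only [mem_filter, mem_univ, true_and] at hm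
        apply hcon
        rw [Finset.mem_Ico]
        omega
      have h2 := card_le_card h1
      rw [Nat.card_Ico] at h2
      have h3 := hΔ v
      omega
    · have h1 : ((range (k' + p - 1)).filter fun ℓ => mm ℓ v = v).card ≤ k' + p - 1 := by
        refine (card_filter_le _ _).trans ?_
        rw [card_range]
      have h2 : (dg G v : ℝ) + ((k' + p - 1 : ℕ) : ℝ) ≤ Δ := by
        linarith
      have h3 : dg G v + (k' + p - 1) ≤ Δ := by exact_mod_cast h2
      omega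

end Pool.Agent.H71.SX
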