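import Mathlib
import Pool.Agent.H71.SX.Defs
import Pool.Agent.H28.LLL

/-!
LLP: a partition of the vertices into `s` parts such that every vertex has at most `2 Δ / s` neighbours in
each part, `s ^ 4 ≤ Δ` (local lemma).

Proof.  `H28/LLL.lean` has `local_lemma` and `chernoff` (counting versions, uniform random functions
`V → κ`); `H28/Groups.lean` is a model of their use. `κ = Fin s`. For `(v, i) : V × Fin s` let `A (v, i)` be
the set of the `f : V → Fin s` with `2 Δ / s ≤ #{u : G.Adj v u, f u = i}` (real division). It depends only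
on the coordinates in `N (v, i) := {u : G.Adj v u}`. `chernoff` with `N = N (v, i)`, `g = i`, `m = Δ / s`
(`#N ≤ Δ = m * card κ`), and `s := 1/2` (its parameter; `(1 + 2 * (1/2)) m = 2 Δ / s`):
`#A ≤ exp (- Δ / (4 s)) #(V → κ) ≤ q #(V → κ)` with `q := exp (- Δ ^ (3/4) / 4)`, as `s ≤ Δ ^ (1/4)`; a version
without real powers: `s ^ 4 ≤ Δ` gives `Δ / s ≥ s ^ 3` and `(Δ / s) ^ 4 ≥ Δ ^ 3`, so `Δ / s ≥ √Δ`, and one may
use `q := exp (- √Δ / 4)`. If `(v, i) ≠ (v', i')` and `N (v, i)`, `N (v', i')` meet in `u`, then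
`v' ∈ N(u)`, `u ∈ N(v)`: at most `Δ * Δ * s ≤ Δ ^ 3 =: d` pairs `(v', i')` (`s ≤ s ^ 4 ≤ Δ`).
`4 q d = 4 Δ ^ 3 exp (- √Δ / 4) ≤ 1` and `4 q ≤ 1` for `Δ ≥ D0` (for example from
`x ^ k / k! ≤ exp x`, `Real.pow_div_factorial_le_exp`, with `x = √Δ / 4`, `k = 8`).
`local_lemma` gives `f`; then `#{u : G.Adj v u, f u = i} * s ≤ 2 Δ` (in ℕ). The result is
`fun v => (f v : ℕ)`; for `i ≥ s` the set is empty.
-/

set_option autoImplicit false

namespace Pool.Agent.H71.SX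

open Finset Classical
open Pool.Agent.H71.DN

/-- Random partition by the local lemma. -/
theorem Llp_part {V : Type} [Fintype V] (G : SimpleGraph V) (K D : ℕ) (hK : 1 ≤ K) (m : ℝ)
    (hD : ∀ v, (univ.filter fun u => G.Adj v u).card ≤ D) (hm : (D : ℝ) ≤ m * K)
    (h1 : 4 * ((K : ℝ) * Real.exp (-((1 / 2) ^ 2 * m))) * (D : ℝ) ^ 2 ≤ 1)
    (h2 : 4 * ((K : ℝ) * Real.exp (-((1 / 2) ^ 2 * m))) ≤ 1) :
    ∃ f : V → Fin K, ∀ v g,
      (((univ.filter fun u => G.Adj v u).filter (fun u => f u = g)).card : ℝ) <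
        (1 + 2 * (1 / 2)) * m := by
  have : Nonempty (Fin K) := ⟨⟨0, hK⟩⟩
  obtain ⟨N, hN⟩ : ∃ N : V → Finset V, ∀ v, N v = univ.filter fun u => G.Adj v u :=
    ⟨_, fun _ => rfl⟩
  have hmem : ∀ v u, u ∈ N v ↔ G.Adj v u := by
    intro v u
    rw [hN]
    simp
  have hD' : ∀ v, (N v).card ≤ D := by
    intro v
    rw [hN]
    exact hD v
  let A : V → Finset (V → Fin K) := fun v => Finset.univ.biUnion (fun g : Fin K =>
    Finset.univ.filter (fun f : V → Fin K => (1 + 2 * (1 / 2)) * m ≤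
      (((N v).filter (fun u => f u = g)).card : ℝ)))
  have hdep : ∀ v, Pool.Agent.H28.DependsOnly (A v) (N v) := by
    intro v f f' hff hf
    simp only [A, Finset.mem_biUnion, Finset.mem_filter, Finset.mem_univ, true_and] at hf ⊢
    obtain ⟨g, hg⟩ := hf
    refine ⟨g, ?_⟩
    have h3 : (N v).filter (fun u => f' u = g) = (N v).filter (fun u => f u = g) := by
      apply Finset.filter_congr
      intro u hu
      rw [hff u hu]
    rw [h3]
    exact hg
  have hcard : ∀ v, ((A v).card : ℝ) ≤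
      ((K : ℝ) * Real.exp (-((1 / 2) ^ 2 * m))) * Fintype.card (V → Fin K) := by
    intro v
    have h3 : ((A v).card : ℝ) ≤ ∑ g : Fin K, ((Finset.univ.filter (fun f : V → Fin K =>
        (1 + 2 * (1 / 2)) * m ≤ (((N v).filter (fun u => f u = g)).card : ℝ))).card : ℝ) := by
      exact_mod_cast Finset.card_biUnion_le
    refine h3.trans ?_
    have h4 : ∀ g : Fin K, ((Finset.univ.filter (fun f : V → Fin K => (1 + 2 * (1 / 2)) * m ≤
      (((N v).filter (fun u => f u = g)).card : ℝ))).card : ℝ) ≤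
        Real.exp (-((1 / 2) ^ 2 * m)) * Fintype.card (V → Fin K) := by
      intro g
      apply Pool.Agent.H28.chernoff _ _ _ _ (by norm_num) (by norm_num)
      · rw [Fintype.card_fin]
        refine le_trans ?_ hm
        exact_mod_cast hD' v
      · rw [Fintype.card_fin]; exact hK
    refine (Finset.sum_le_sum (fun g _ => h4 g)).trans ?_
    rw [Finset.sum_const, Finset.card_univ, Fintype.card_fin, nsmul_eq_mul]
    exact le_of_eq (by ring)
  have hd : ∀ v, (Finset.univ.filter (fun u => u ≠ v ∧ ¬ Disjoint (N v) (N u))).card ≤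
      D ^ 2 := by
    intro v
    have hsub : Finset.univ.filter (fun u => u ≠ v ∧ ¬ Disjoint (N v) (N u)) ⊆
        (N v).biUnion (fun w => N w) := by
      intro u hu
      simp only [Finset.mem_filter, Finset.mem_univ, true_and] at hu
      rw [Finset.not_disjoint_iff] at hu
      obtain ⟨_, w, hw1, hw2⟩ := hu
      rw [Finset.mem_biUnion]
      refine ⟨w, hw1, ?_⟩
      rw [hmem] at hw2 ⊢
      exact hw2.symm
    refine (Finset.card_le_card hsub).trans (Finset.card_biUnion_le.trans ?_)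
    calc ∑ w ∈ N v, (N w).card ≤ ∑ _w ∈ N v, D := Finset.sum_le_sum (fun w _ => hD' w)
      _ = (N v).card * D := by
          rw [Finset.sum_const, smul_eq_mul]
      _ ≤ D ^ 2 := by
          rw [sq]; exact Nat.mul_le_mul_right _ (hD' v)
  obtain ⟨f, hf⟩ := Pool.Agent.H28.local_lemma A (fun v => N v) hdep (D ^ 2)
    ((K : ℝ) * Real.exp (-((1 / 2) ^ 2 * m))) (by positivity) hd hcard
    (by push_cast; exact h1) h2 Fintype.card_pos
  refine ⟨f, fun v g => ?_⟩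
  by_contra hcon
  push Not at hcon
  apply hf v
  simp only [A, Finset.mem_biUnion, Finset.mem_filter, Finset.mem_univ, true_and]
  rw [← hN] at hcon
  refine ⟨g, ?_⟩
  exact hcon

/-- The numerical conditions. -/
theorem Llp_num (D K : ℕ) (hD : 10569646080 ≤ D) (hK : 1 ≤ K) (hKD : K ^ 4 ≤ D) :
    4 * ((K : ℝ) * Real.exp (-((1 / 2) ^ 2 * ((D : ℝ) / K)))) * (D : ℝ) ^ 2 ≤ 1 := by
  have hD1 : (10569646080 : ℝ) ≤ D := by exact_mod_cast hD
  have hD0 : (0 : ℝ) < D := by linarith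
  have hK1 : (1 : ℝ) ≤ K := by exact_mod_cast hK
  have hK0 : (0 : ℝ) < K := by linarith
  have hKD1 : (K : ℝ) ^ 4 ≤ D := by exact_mod_cast hKD
  have hKD2 : (K : ℝ) ≤ D := by
    refine le_trans ?_ hKD1
    calc (K : ℝ) = (K : ℝ) ^ 1 := (pow_one _).symm
      _ ≤ (K : ℝ) ^ 4 := pow_le_pow_right₀ hK1 (by norm_num)
  obtain ⟨x, hx⟩ : ∃ x : ℝ, x = (D : ℝ) / K := ⟨_, rfl⟩
  have hx0 : 0 < x := by rw [hx]; positivity
  have hx4 : (D : ℝ) ^ 3 ≤ x ^ 4 := by
    rw [hx, div_pow, le_div_iff₀ (by positivity)]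
    calc (D : ℝ) ^ 3 * (K : ℝ) ^ 4 ≤ (D : ℝ) ^ 3 * D :=
          mul_le_mul_of_nonneg_left hKD1 (by positivity)
      _ = (D : ℝ) ^ 4 := by ring
  have hx8 : (D : ℝ) ^ 6 ≤ x ^ 8 := by
    calc (D : ℝ) ^ 6 = ((D : ℝ) ^ 3) ^ 2 := by ring
      _ ≤ (x ^ 4) ^ 2 := pow_le_pow_left₀ (by positivity) hx4 2
      _ = x ^ 8 := by ring
  have he := Real.pow_div_factorial_le_exp (x / 4) (by positivity) 8
  have hf : ((Nat.factorial 8 : ℕ) : ℝ) = 40320 := by norm_num [Nat.factorial]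
  rw [hf] at he
  have he2 : (D : ℝ) ^ 6 ≤ 2642411520 * Real.exp (x / 4) := by
    have h3 : (x / 4) ^ 8 / 40320 = x ^ 8 / 2642411520 := by
      rw [div_pow, div_div]
      norm_num
    rw [h3, div_le_iff₀ (by norm_num)] at he
    linarith
  rw [← hx]
  have e1 : -((1 / 2 : ℝ) ^ 2 * x) = -(x / 4) := by ring
  rw [e1, Real.exp_neg]
  have hE : 0 < Real.exp (x / 4) := Real.exp_pos _
  have h5 : 4 * ((K : ℝ) * (Real.exp (x / 4))⁻¹) * (D : ℝ) ^ 2 =
      (4 * K * (D : ℝ) ^ 2) / Real.exp (x / 4) := by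
    field_simp
  rw [h5, div_le_one hE]
  have h6 : 4 * K * (D : ℝ) ^ 2 ≤ 4 * (D : ℝ) ^ 3 := by
    have h7 := mul_le_mul_of_nonneg_right hKD2 (by positivity : (0 : ℝ) ≤ 4 * (D : ℝ) ^ 2)
    nlinarith
  have h8 : (10569646080 : ℝ) * (D : ℝ) ^ 3 ≤ (D : ℝ) ^ 6 := by
    have h9 : (10569646080 : ℝ) ≤ (D : ℝ) ^ 3 := by
      calc (10569646080 : ℝ) ≤ D := hD1
        _ = (D : ℝ) ^ 1 := (pow_one _).symm
        _ ≤ (D : ℝ) ^ 3 := pow_le_pow_right₀ (by linarith) (by norm_num)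
    calc (10569646080 : ℝ) * (D : ℝ) ^ 3 ≤ (D : ℝ) ^ 3 * (D : ℝ) ^ 3 :=
          mul_le_mul_of_nonneg_right h9 (by positivity)
      _ = (D : ℝ) ^ 6 := by ring
  linarith

theorem llp : ∃ D0 : ℕ, ∀ Δ s : ℕ, D0 ≤ Δ → 1 ≤ s → s ^ 4 ≤ Δ →
    ∀ (V : Type) [Fintype V] (G : SimpleGraph V), (∀ v, dg G v ≤ Δ) →
      ∃ f : V → ℕ, (∀ v, f v < s) ∧
        ∀ v i, (univ.filter fun u => G.Adj v u ∧ f u = i).card * s ≤ 2 * Δ := by
  refine ⟨10569646080, fun Δ s hΔ hs hsΔ V _ G hG => ?_⟩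
  have hs0 : (0 : ℝ) < s := by exact_mod_cast hs
  have hΔ1 : (1 : ℝ) ≤ Δ := by
    have : 1 ≤ Δ := by omega
    exact_mod_cast this
  have h1 := Llp_num Δ s hΔ hs hsΔ
  have h2 : 4 * ((s : ℝ) * Real.exp (-((1 / 2) ^ 2 * ((Δ : ℝ) / s)))) ≤ 1 := by
    refine le_trans ?_ h1
    have h3 : (0 : ℝ) ≤ 4 * ((s : ℝ) * Real.exp (-((1 / 2) ^ 2 * ((Δ : ℝ) / s)))) := by
      positivity
    have h4 : (1 : ℝ) ≤ (Δ : ℝ) ^ 2 := one_le_pow₀ hΔ1
    nlinarith
  obtain ⟨f, hf⟩ := Llp_part G s Δ hs ((Δ : ℝ) / s) (fun v => hG v)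
    (by rw [div_mul_cancel₀ _ hs0.ne']) h1 h2
  refine ⟨fun v => (f v : ℕ), fun v => (f v).2, fun v i => ?_⟩
  by_cases hi : i < s
  · have h5 := hf v ⟨i, hi⟩
    have h6 : (univ.filter fun u => G.Adj v u ∧ ((f u : Fin s) : ℕ) = i) =
        (univ.filter fun u => G.Adj v u).filter (fun u => f u = ⟨i, hi⟩) := by
      ext u
      simp only [Finset.mem_filter, Finset.mem_univ, true_and, Fin.ext_iff]
    rw [h6]
    have h7 : (1 + 2 * (1 / 2) : ℝ) * ((Δ : ℝ) / s) = 2 * Δ / s := by ring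
    rw [h7, lt_div_iff₀ hs0] at h5
    have h8 : ((((univ.filter fun u => G.Adj v u).filter (fun u => f u = ⟨i, hi⟩)).card * s : ℕ) : ℝ) <
        ((2 * Δ : ℕ) : ℝ) := by
      push_cast
      exact h5
    exact (Nat.cast_lt.1 h8).le
  · have h6 : (univ.filter fun u => G.Adj v u ∧ ((f u : Fin s) : ℕ) = i) = ∅ := by
      apply Finset.filter_eq_empty_iff.2
      intro u _ h7
      have := (f u).2
      omega
    rw [h6]
    simp

end Pool.Agent.H71.SX
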