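import Mathlib
import Pool.Agent.H71.SX.Cev
import Pool.Agent.H71.SX.Cod
import Pool.Agent.H71.SX.Co1
import Pool.Agent.H71.SX.Cor
import Pool.Agent.H71.SX.Llp
import Pool.Agent.H71.DN.MnA
import Pool.Agent.H2.HV.FIN

/-!
MNS: the Havet-Yu bound for expanders of small chromatic number.
-/

set_option autoImplicit false

namespace Pool.Agent.H71.SX

open Finset Classical
open Pool.Agent.H71.DN

theorem ev4 (C c : ℝ) (hc : 0 < c) : ∃ D : ℕ, ∀ Δ : ℕ, D ≤ Δ →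
    C * (Δ : ℝ) ^ (3 / 4 : ℝ) * (Real.log Δ) ^ (1 / 4 : ℝ) ≤ c * (Δ : ℝ) ^ (4 / 5 : ℝ) := by
  have h1 := (isLittleO_log_rpow_rpow_atTop (s := 1 / 20) (1 / 4) (by norm_num)).bound
    (show 0 < c / (|C| + 1) by positivity)
  have h2 := (tendsto_natCast_atTop_atTop (R := ℝ)).eventually h1
  obtain ⟨D, hD⟩ := Filter.eventually_atTop.1 h2
  refine ⟨D + 1, fun Δ hΔ => ?_⟩
  have h3 := hD Δ (by omega)
  have hx : (0 : ℝ) < Δ := by
    have : 0 < Δ := by omega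
    exact_mod_cast this
  have hx1 : (1 : ℝ) ≤ Δ := by
    have : 1 ≤ Δ := by omega
    exact_mod_cast this
  have hlog : 0 ≤ (Real.log Δ) ^ (1 / 4 : ℝ) := Real.rpow_nonneg (Real.log_nonneg hx1) _
  have h20 : 0 ≤ (Δ : ℝ) ^ (1 / 20 : ℝ) := Real.rpow_nonneg hx.le _
  rw [Real.norm_of_nonneg hlog, Real.norm_of_nonneg h20] at h3
  have h34 : 0 ≤ (Δ : ℝ) ^ (3 / 4 : ℝ) := Real.rpow_nonneg hx.le _
  have h5 : (Δ : ℝ) ^ (4 / 5 : ℝ) = (Δ : ℝ) ^ (3 / 4 : ℝ) * (Δ : ℝ) ^ (1 / 20 : ℝ) := by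
    rw [← Real.rpow_add hx]
    norm_num
  rw [h5]
  have hC : C ≤ |C| + 1 := by
    have := le_abs_self C
    linarith
  have hC1 : 0 < |C| + 1 := by positivity
  calc C * (Δ : ℝ) ^ (3 / 4 : ℝ) * (Real.log Δ) ^ (1 / 4 : ℝ)
      ≤ (|C| + 1) * (Δ : ℝ) ^ (3 / 4 : ℝ) * (Real.log Δ) ^ (1 / 4 : ℝ) := by
        apply mul_le_mul_of_nonneg_right _ hlog
        exact mul_le_mul_of_nonneg_right hC h34
    _ ≤ (|C| + 1) * (Δ : ℝ) ^ (3 / 4 : ℝ) * (c / (|C| + 1) * (Δ : ℝ) ^ (1 / 20 : ℝ)) := by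
        apply mul_le_mul_of_nonneg_left h3
        positivity
    _ = c * ((Δ : ℝ) ^ (3 / 4 : ℝ) * (Δ : ℝ) ^ (1 / 20 : ℝ)) := by
        field_simp

/-- The numerical facts about `γ`. -/
theorem numg (x γ : ℝ) (hx : (1000 : ℝ) ^ 10 ≤ x) (hγ : x ^ (-(1 / 10) : ℝ) ≤ γ) (hγ1 : γ ≤ 1) :
    0 < γ ∧ x ^ (4 / 5 : ℝ) ≤ γ ^ 2 * x ∧ 10 ^ 9 ≤ γ * x ∧ 3 ≤ γ * (γ / 10) * x ∧
      (160 / γ + 1) ^ 4 ≤ x := by
  have hx0 : 0 < x := lt_of_lt_of_le (by norm_num) hx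
  obtain ⟨y, hy⟩ : ∃ y, y = x ^ (1 / 10 : ℝ) := ⟨_, rfl⟩
  have hy0 : 0 < y := by rw [hy]; positivity
  have hyx : y ^ 10 = x := by
    rw [hy, ← Real.rpow_natCast, ← Real.rpow_mul hx0.le]
    norm_num
  have hy1 : 1000 ≤ y := by
    have h1 : (1000 : ℝ) ^ 10 ≤ y ^ 10 := by rw [hyx]; exact hx
    exact (pow_le_pow_iff_left₀ (by norm_num) hy0.le (by norm_num)).1 h1
  have hγy : y⁻¹ ≤ γ := by
    rw [hy, ← Real.rpow_neg hx0.le]
    exact hγ
  have hγ0 : 0 < γ := lt_of_lt_of_le (inv_pos.2 hy0) hγy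
  have h1γ : 1 ≤ γ * y := by
    rw [inv_le_iff_one_le_mul₀ hy0] at hγy
    exact hγy
  have h45 : x ^ (4 / 5 : ℝ) = y ^ 8 := by
    rw [hy, ← Real.rpow_natCast, ← Real.rpow_mul hx0.le]
    norm_num
  have hsq : 1 ≤ γ ^ 2 * y ^ 2 := by
    have := mul_le_mul h1γ h1γ (by norm_num) (by positivity)
    nlinarith
  have h2 : y ^ 8 ≤ γ ^ 2 * x := by
    rw [← hyx]
    have : γ ^ 2 * y ^ 10 = (γ ^ 2 * y ^ 2) * y ^ 8 := by ring
    rw [this]
    exact le_mul_of_one_le_left (by positivity) hsq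
  have h8 : (10 : ℝ) ^ 24 ≤ y ^ 8 := by
    have : (10 : ℝ) ^ 24 = 1000 ^ 8 := by norm_num
    rw [this]
    exact pow_le_pow_left₀ (by norm_num) hy1 8
  refine ⟨hγ0, by rw [h45]; exact h2, ?_, ?_, ?_⟩
  · have h3 : γ ^ 2 * x ≤ γ * x := by
      have : γ ^ 2 ≤ γ := by nlinarith
      exact mul_le_mul_of_nonneg_right this hx0.le
    have : (10 : ℝ) ^ 9 ≤ 10 ^ 24 := by norm_num
    linarith
  · have : γ * (γ / 10) * x = γ ^ 2 * x / 10 := by ring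
    rw [this]
    have : (30 : ℝ) ≤ 10 ^ 24 := by norm_num
    linarith
  · have h3 : 160 / γ + 1 ≤ 161 * y := by
      have h4 : 160 / γ ≤ 160 * y := by
        rw [div_le_iff₀ hγ0]
        nlinarith
      linarith
    have h4 : (160 / γ + 1) ^ 4 ≤ (161 * y) ^ 4 := by
      apply pow_le_pow_left₀ (by positivity) h3
    have h5 : (161 * y) ^ 4 ≤ y ^ 10 := by
      have h6 : (161 : ℝ) ^ 4 ≤ y ^ 6 := by
        have : (161 : ℝ) ^ 4 ≤ 1000 ^ 6 := by norm_num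
        exact this.trans (pow_le_pow_left₀ (by norm_num) hy1 6)
      have h7 : (161 * y) ^ 4 = 161 ^ 4 * y ^ 4 := by ring
      have h8 : y ^ 10 = y ^ 6 * y ^ 4 := by ring
      rw [h7, h8]
      exact mul_le_mul_of_nonneg_right h6 (by positivity)
    rw [hyx] at h5
    exact h4.trans h5

theorem ee_single {V : Type} [Fintype V] (G : SimpleGraph V) (v : V) :
    ee G {v} (univ \ {v}) ≤ dg G v := by
  unfold ee dg
  have h4 : (({v} ×ˢ (univ \ {v})).filter fun x : V × V => G.Adj x.1 x.2) ⊆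
      (univ.filter fun u => G.Adj v u).image (fun u => (v, u)) := by
    intro x hx
    rw [mem_filter, mem_product, mem_singleton] at hx
    rw [mem_image]
    refine ⟨x.2, ?_, ?_⟩
    · rw [mem_filter]
      refine ⟨mem_univ _, ?_⟩
      have := hx.2
      rw [hx.1.1] at this
      exact this
    · rw [← hx.1.1]
  exact (card_le_card h4).trans card_image_le

theorem mainS : ∃ (c : ℝ) (D : ℕ), 0 < c ∧
    ∀ (V : Type) [Fintype V] (G : SimpleGraph V) [DecidableRel G.Adj] (γ : ℝ) (p k : ℕ),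
      D ≤ G.maxDegree → 5 * G.maxDegree ≤ 2 * Fintype.card V → 1 ≤ p →
      (G.maxDegree : ℝ) ^ (-(1 / 10) : ℝ) ≤ γ →
      EE G G.maxDegree γ → FB G G.maxDegree γ →
      G.Colorable k → (k : ℝ) ≤ c * γ ^ 2 * G.maxDegree →
      H70.HY.HYLab G G.maxDegree p := by
  obtain ⟨D0, hD0⟩ := llp
  obtain ⟨C, hC, hCH⟩ := H2.HV.main_hv
  obtain ⟨c, hc⟩ : ∃ c : ℝ, c = 1 / 10 ^ 6 := ⟨_, rfl⟩
  have hc0 : 0 < c := by rw [hc]; norm_num
  obtain ⟨D2, hD2⟩ := ev4 C c hc0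
  refine ⟨c, D0 + D2 + 1000 ^ 10, hc0, ?_⟩
  intro V _ G _ γ p k hD hn hp hγ hE hB hcol hk
  obtain ⟨Δ, hΔd⟩ : ∃ Δ, Δ = G.maxDegree := ⟨_, rfl⟩
  have hdg : ∀ v, dg G v ≤ Δ := fun v => by rw [hΔd]; exact (dg_bd G v).2
  rw [← hΔd] at hD hn hγ hE hB hk ⊢
  obtain ⟨n, hnd⟩ : ∃ n, n = Fintype.card V := ⟨_, rfl⟩
  have hx : (1000 : ℝ) ^ 10 ≤ (Δ : ℝ) := by
    have : 1000 ^ 10 ≤ Δ := by omega
    exact_mod_cast this
  have hx0 : (0 : ℝ) < Δ := lt_of_lt_of_le (by norm_num) hx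
  -- `γ ≤ 1`
  have hγ1 : γ ≤ 1 := by
    have hne : Nonempty V := by
      rw [← Fintype.card_pos_iff]
      omega
    obtain ⟨v⟩ := hne
    have h1 := hE {v} (by rw [card_singleton]; omega)
    have h2 : (ee G {v} (univ \ {v}) : ℝ) ≤ Δ := by
      have h3 : ee G {v} (univ \ {v}) ≤ dg G v := ee_single G v
      exact_mod_cast h3.trans (hdg v)
    rw [card_singleton] at h1
    push_cast at h1
    have h3 : γ * Δ ≤ 1 * Δ := by linarith
    exact le_of_mul_le_mul_right h3 hx0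
  obtain ⟨hγ0, hg1, hg2, hg3, hg4⟩ := numg Δ γ hx hγ hγ1
  by_cases hpκ : c * γ ^ 2 * Δ ≤ (p : ℝ)
  · -- large `p`
    have h1 := hCH V G p (by rw [← hΔd]; omega)
    rw [← hΔd] at h1
    apply h1
    have h2 := hD2 Δ (by omega)
    refine h2.trans (le_trans ?_ hpκ)
    rw [mul_assoc]
    exact mul_le_mul_of_nonneg_left hg1 hc0.le
  push Not at hpκ
  -- parameters
  obtain ⟨η, hη⟩ : ∃ η : ℝ, η = γ / 10 := ⟨_, rfl⟩
  have hη0 : 0 < η := by rw [hη]; positivity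
  have hη8 : η ≤ 1 / 8 := by rw [hη]; linarith
  have hηγ : 10 * η ≤ γ := by rw [hη]; linarith
  have hγη : 3 ≤ γ * η * Δ := by rw [hη]; exact hg3
  obtain ⟨s, hs⟩ : ∃ s : ℕ, s = ⌈16 / η⌉₊ := ⟨_, rfl⟩
  have hs1 : 16 / η ≤ (s : ℝ) := by rw [hs]; exact Nat.le_ceil _
  have hs2 : (s : ℝ) ≤ 16 / η + 1 := by
    rw [hs]
    exact (Nat.ceil_lt_add_one (by positivity)).le
  have h16 : 16 / η = 160 / γ := by
    rw [hη]
    field_simp
    norm_num
  have hs0 : (0 : ℝ) < s := lt_of_lt_of_le (by positivity) hs1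
  have hs1' : 1 ≤ s := by
    have : 0 < s := by exact_mod_cast hs0
    omega
  have hs4 : s ^ 4 ≤ Δ := by
    have h1 : ((s : ℝ)) ^ 4 ≤ Δ := by
      refine le_trans (pow_le_pow_left₀ hs0.le hs2 4) ?_
      rw [h16]
      exact hg4
    exact_mod_cast h1
  obtain ⟨f, hf, hfc⟩ := hD0 Δ s (by omega) hs1' hs4 V G hdg
  obtain ⟨col, hcl, hcp⟩ := colr G k hcol
  -- numerical facts
  have hηs : η * s ≤ 17 := by
    have h1 : η * s ≤ η * (16 / η + 1) := mul_le_mul_of_nonneg_left hs2 hη0.le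
    have h2 : η * (16 / η + 1) = 16 + η := by field_simp
    linarith
  have hk0 : (0 : ℝ) ≤ k := Nat.cast_nonneg _
  have hp0 : (0 : ℝ) ≤ p := Nat.cast_nonneg _
  have hcγ : c * γ ^ 2 * Δ = η * (η * Δ) / 10 ^ 4 := by
    rw [hc, hη]
    ring
  obtain ⟨w, hw⟩ : ∃ w : ℝ, w = η * Δ := ⟨_, rfl⟩
  have hw0 : 0 < w := by rw [hw]; positivity
  have hwb : 10 ^ 8 ≤ w := by
    rw [hw, hη]
    have : γ / 10 * Δ = γ * Δ / 10 := by ring
    rw [this]
    have : (10 : ℝ) ^ 9 = 10 * 10 ^ 8 := by norm_num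
    linarith
  have hwΔ : w ≤ Δ / 8 := by
    rw [hw]
    have := mul_le_mul_of_nonneg_right hη8 hx0.le
    linarith
  rw [hcγ, ← hw] at hk hpκ
  have hsk : (s : ℝ) * k ≤ 17 * w / 10 ^ 4 := by
    have h1 : (s : ℝ) * k ≤ s * (η * w / 10 ^ 4) := mul_le_mul_of_nonneg_left hk hs0.le
    have h2 : (s : ℝ) * (η * w / 10 ^ 4) = (η * s) * w / 10 ^ 4 := by ring
    have h3 : (η * s) * w ≤ 17 * w := mul_le_mul_of_nonneg_right hηs hw0.le
    linarith
  have hsp : (s : ℝ) * p ≤ 17 * w / 10 ^ 4 := by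
    have h1 : (s : ℝ) * p ≤ s * (η * w / 10 ^ 4) := mul_le_mul_of_nonneg_left hpκ.le hs0.le
    have h2 : (s : ℝ) * (η * w / 10 ^ 4) = (η * s) * w / 10 ^ 4 := by ring
    have h3 : (η * s) * w ≤ 17 * w := mul_le_mul_of_nonneg_right hηs hw0.le
    linarith
  have hpw : (p : ℝ) ≤ w / 10 ^ 4 := by
    have : η * w ≤ 1 * w := mul_le_mul_of_nonneg_right (by linarith) hw0.le
    linarith
  have h4s : 4 * (Δ : ℝ) / s ≤ w / 4 := by
    rw [div_le_iff₀ hs0, hw]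
    have : 16 ≤ η * s := by
      rw [div_le_iff₀ hη0] at hs1
      linarith
    nlinarith
  have hT : ((2 * s * (k + 2 * p) : ℕ) : ℝ) ≤ 102 * w / 10 ^ 4 := by
    push_cast
    have : (2 : ℝ) * s * (k + 2 * p) = 2 * (s * k) + 4 * (s * p) := by ring
    rw [this]
    linarith
  have hΔn : 5 * (Δ : ℝ) ≤ 2 * n := by
    rw [hnd]
    exact_mod_cast hn
  have loc_mono : ∀ (k' : ℕ) (c' : V → ℕ) (r : ℝ), LY G k' p c' r → r ≤ w →
      LY G k' p c' (η * Δ) := by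
    intro k' c' r h hr
    rw [← hw]
    exact ⟨h.lt, h.prop, h.even, fun ℓ v => (h.loc ℓ v).trans hr⟩
  rcases Nat.even_or_odd (Fintype.card V) with hpar | hpar
  · -- even order
    obtain ⟨c', hc'⟩ := cev G Δ k s p col f hp hs1' hcl hcp hf hfc hdg hpar (by
      have h1 : ((2 * Δ + 4 * (s * k) : ℕ) : ℝ) < n := by
        push_cast
        linarith
      rw [← hnd]
      exact_mod_cast h1)
    refine core G Δ p _ c' γ η hp hη0 hη8 hηγ hγη hdg hE hB (loc_mono _ _ _ hc' ?_) ?_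
    · linarith
    · have h1 : ((2 * s * (k + 2 * p) + p - 1 : ℕ) : ℝ) ≤
          ((2 * s * (k + 2 * p) : ℕ) : ℝ) + p := by
        have : 2 * s * (k + 2 * p) + p - 1 ≤ 2 * s * (k + 2 * p) + p := by omega
        exact_mod_cast this
      rw [← hw]
      linarith
  · by_cases hp1 : p = 1
    · -- odd order, `p = 1`
      subst hp1
      obtain ⟨c', k', hk', hc'⟩ := co1 G Δ k s col f hs1' hcl hcp hf hfc hpar
      refine core G Δ 1 k' c' γ η le_rfl hη0 hη8 hηγ hγη hdg hE hB (loc_mono _ _ _ hc' ?_) ?_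
      · have : 2 * (Δ : ℝ) / s = (4 * (Δ : ℝ) / s) / 2 := by ring
        linarith
      · have h1 : (k' : ℝ) ≤ 2 * (s * k) := by exact_mod_cast hk'
        rw [← hw, Nat.add_sub_cancel]
        linarith
    · -- odd order, `p ≥ 2`
      obtain ⟨c', k', hk', hc'⟩ := cod G Δ k s p col f (by omega) hs1' hcl hcp hf hfc hdg hpar (by
        have h1 : ((2 * s * (k + 2 * p) + 3 + 2 * Δ + 4 * (s * k) : ℕ) : ℝ) < n := by
          have h2 : ((2 * s * (k + 2 * p) + 3 + 2 * Δ + 4 * (s * k) : ℕ) : ℝ) =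
              ((2 * s * (k + 2 * p) : ℕ) : ℝ) + 3 + 2 * Δ + 4 * (s * k) := by push_cast; ring
          rw [h2]
          linarith
        rw [← hnd]
        exact_mod_cast h1)
      refine core G Δ p k' c' γ η hp hη0 hη8 hηγ hγη hdg hE hB (loc_mono _ _ _ hc' ?_) ?_
      · linarith
      · have h1 : ((k' + p - 1 : ℕ) : ℝ) ≤ 3 * ((2 * s * (k + 2 * p) : ℕ) : ℝ) + 6 * p := by
          have : k' + p - 1 ≤ 3 * (2 * s * (k + 2 * p)) + 6 * p := by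
            have h2 : 6 * s * (k + 2 * p) = 3 * (2 * s * (k + 2 * p)) := by ring
            omega
          exact_mod_cast this
        rw [← hw]
        linarith

end Pool.Agent.H71.SX
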